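import Pool.Agent.J4H72.LA.Look
set_option autoImplicit false

/-!
# Two constructions: records of an orientation that is uniform in some coordinates, and fronts
-/

namespace Pool.Agent.J4H72.LA

open Finset Pool.Agent.TH70.AR

variable {n : ℕ}

/-- **Records of one orientation.** If the coordinates of `C` are uniform towards `t` in `f₀`, the
coordinates of `C` in which a vertex `u` differs from `t` wipe the record of `u`. -/
lemma ext_aof {f₀ : (Fin n → Bool) → ℕ} (hf : AOF f₀) {C Y : Finset (Fin n)} {t : Fin n → Bool}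
    (hC : ∀ u, ∀ i ∈ C, u i = t i → f₀ (TH70.AR.flip u i) < f₀ u) (U : List (Fin n → Bool)) :
    Ext Y (U.map fun u =>
      (⟨u, Y.filter (fun i => f₀ u < f₀ (TH70.AR.flip u i)), (Y ∩ C).filter fun i => u i ≠ t i⟩ : Rec n)) := by
  classical
  intro v 𝓐 h𝓐
  set P : (Fin n → Bool) → Prop := fun z => ∀ u ∈ U, ∃ i ∈ C, z i = v i ∧ v i = t i ∧ z i ≠ u i
    with hP
  have hA : AOF (stack P (fun u => agr u v) f₀) := by
    apply hf.stackUniform
    · intro z i hz hi u hu
      obtain ⟨j, h1, h2, h3, h4⟩ := hz u hu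
      have hji : j ≠ i := by rintro rfl; exact hi h2
      refine ⟨j, h1, ?_, h3, ?_⟩
      · rw [flip_of_ne _ hji]; exact h2
      · rw [flip_of_ne _ hji]; exact h4
    · intro z hz
      refine ⟨C.filter fun i => z i = v i ∧ v i = t i, ?_, ?_, ?_⟩
      · intro z' hz' i hi
        have h1 := hz' i hi
        rw [mem_filter] at hi
        exact hC z' i hi.1 (h1.trans hi.2.2)
      · intro i hi
        rw [mem_filter] at hi
        exact hi.2.1
      · intro z' hz' u hu
        obtain ⟨j, h1, h2, h3, h4⟩ := hz u hu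
        have h5 := hz' j (mem_filter.2 ⟨h1, h2, h3⟩)
        exact ⟨j, h1, h5, h3, by rw [h5, ← h2]; exact h4⟩
  refine ⟨_, hA, ?_, ?_⟩
  · intro r hr i hi
    obtain ⟨u, hu, rfl⟩ := List.mem_map.1 hr
    change stack P _ _ u < stack P _ _ (TH70.AR.flip u i) ↔ i ∈ Y.filter (fun i => f₀ u < f₀ (TH70.AR.flip u i))
    rw [mem_filter]
    have huP : ¬ P u := by
      intro h
      obtain ⟨j, _, _, _, h4⟩ := h u hu
      exact h4 rfl
    by_cases hfP : P (TH70.AR.flip u i)
    · refine iff_of_true (stack_lt huP hfP) ⟨hi, ?_⟩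
      obtain ⟨j, h1, h2, h3, h4⟩ := hfP u hu
      have hji : j = i := by
        by_contra hne
        rw [flip_of_ne _ hne] at h4
        exact h4 rfl
      subst hji
      have := hC (TH70.AR.flip u j) j h1 (h2.trans h3)
      rwa [TH70.AR.flip_flip] at this
    · rw [stack_lt_neg huP hfP]
      exact ⟨fun h => ⟨hi, h⟩, fun h => h.2⟩
  · intro A hAA z hz i hi
    have hzP : P z := by
      intro u hu
      obtain ⟨x, hx1, hx2, hx3⟩ := h𝓐 A hAA _ (List.mem_map_of_mem hu)
      rw [mem_filter, mem_inter] at hx2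
      have hvt : v x = t x := by
        have h1 := hx2.2
        change v x ≠ u x at hx3
        cases hv : v x <;> cases ht : t x <;> cases hu' : u x <;> simp_all
      refine ⟨x, hx2.1.2, hz x hx1, hvt, ?_⟩
      rw [hz x hx1]
      exact hx3
    by_cases h : P (TH70.AR.flip z i)
    · rw [stack_lt_pos h hzP]
      exact agr_flip_lt (hz i hi)
    · exact stack_lt h hzP

section front

variable (t t' : Fin n → Bool) (S : Finset (Fin n)) (N : ℕ)

/-- beyond the front: at least `N` of the coordinates of `S` agree with `t` -/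
def Frt (u : Fin n → Bool) : Prop := N ≤ (S.filter fun i => u i = t i).card

instance : DecidablePred (Frt t S N) := fun _ => by unfold Frt; infer_instance

/-- uniform towards `t` before the front, uniform towards `t'` beyond it -/
def frf : (Fin n → Bool) → ℕ := stack (Frt t S N) (fun u => agr u t') (fun u => agr u t)

variable {t t' S N}

lemma Frt.flip_of_ne {u : Fin n → Bool} {i : Fin n} (h : Frt t S N u) (hi : i ∈ S → u i ≠ t i) :
    Frt t S N (TH70.AR.flip u i) := by
  unfold Frt at h ⊢
  refine h.trans (card_le_card fun j hj => ?_)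
  rw [mem_filter] at hj ⊢
  refine ⟨hj.1, ?_⟩
  by_cases hji : j = i
  · subst hji
    exact absurd hj.2 (hi hj.1)
  · rw [TH70.AR.flip_of_ne _ hji]; exact hj.2

lemma Frt.of_flip {u : Fin n → Bool} {i : Fin n} (h : Frt t S N (TH70.AR.flip u i)) (hi : u i = t i) :
    Frt t S N u := by
  have := h.flip_of_ne (i := i) (fun _ => by rw [flip_self, ← hi]; simp)
  rwa [TH70.AR.flip_flip] at this

lemma frf_aof (htt : ∀ i ∈ S, t' i = t i) : AOF (frf t t' S N) := by
  apply (AOF.uniform t).stackUniform
  · intro u i hu hi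
    apply hu.flip_of_ne
    intro hiS
    rwa [← htt i hiS]
  · intro u hu
    refine ⟨S.filter fun i => u i = t i, ?_, ?_, ?_⟩
    · intro z hz i hi
      have h1 := hz i hi
      rw [mem_filter] at hi
      exact agr_flip_lt (h1.trans (htt i hi.1))
    · intro i hi
      rw [mem_filter] at hi
      rw [hi.2, htt i hi.1]
    · intro z hz
      unfold Frt at hu ⊢
      refine hu.trans (card_le_card fun j hj => ?_)
      have h1 := hz j hj
      rw [mem_filter] at hj ⊢
      exact ⟨hj.1, h1.trans (htt j hj.1)⟩

/-- the coordinates in which the targets agree are uniform -/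
lemma frf_unif {u : Fin n → Bool} {i : Fin n} (htt : t' i = t i) (hi : u i = t i) :
    frf t t' S N (TH70.AR.flip u i) < frf t t' S N u := by
  unfold frf
  by_cases h : Frt t S N (TH70.AR.flip u i)
  · have h' := h.of_flip hi
    rw [stack_lt_pos h h']
    exact agr_flip_lt (hi.trans htt.symm)
  · by_cases h' : Frt t S N u
    · exact stack_lt h h'
    · rw [stack_lt_neg h h']
      exact agr_flip_lt hi

lemma frf_neg {u : Fin n → Bool} {i : Fin n} (h : ¬ Frt t S N u) :
    frf t t' S N u < frf t t' S N (TH70.AR.flip u i) ↔ u i ≠ t i := by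
  unfold frf
  by_cases h' : Frt t S N (TH70.AR.flip u i)
  · refine iff_of_true (stack_lt h h') fun hi => h (h'.of_flip hi)
  · rw [stack_lt_neg h h', agr_flip_lt_iff]

lemma frf_pos {u : Fin n → Bool} {i : Fin n} (htt : ∀ i ∈ S, t' i = t i) (h : Frt t S N u) :
    frf t t' S N u < frf t t' S N (TH70.AR.flip u i) ↔ u i ≠ t' i := by
  unfold frf
  by_cases h' : Frt t S N (TH70.AR.flip u i)
  · rw [stack_lt_pos h h', agr_flip_lt_iff]
  · refine iff_of_false ?_ fun hi => h' (h.flip_of_ne fun hiS => by rwa [← htt i hiS])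
    have := stack_lt (g := fun u => agr u t') (f := fun u => agr u t) h' h
    omega

end front

end Pool.Agent.J4H72.LA
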