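import Pool.Agent.J4H72.LA.Wipe
set_option autoImplicit false

/-!
# Epochs: doubling the number of visits
-/

namespace Pool.Agent.J4H72.LA

open Finset Pool.Agent.TH70.AR

variable {n : ℕ} {A : PastL n → Fin n} {c : ℕ → ℕ} {ρ : ℕ}

/-- In every face with more than `K` free coordinates the adversary can make the rule pay at least `N`
visits, at the price of at most `M` records with at most `K` useless directions each, and wipe all of
them by freezing at most `l` coordinates; at the beginning and at the end all free coordinates are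
active. -/
def Lv (A : PastL n → Fin n) (c : ℕ → ℕ) (ρ K l N M : ℕ) : Prop :=
  ∀ (Y : Finset (Fin n)) (h : PastL n) (a : Fin n → Bool), K < Y.card →
    ∃ (q : List ((Fin n → Bool) × View n)) (R : List (Rec n)) (b : Fin n → Bool)
      (X : Finset (Fin n)),
      Phase A c ρ Y Y h a q R b X (Y \ X) K ∧ X.card ≤ l ∧ N ≤ q.length ∧ R.length ≤ M

lemma Phase.mono {Y T X T' : Finset (Fin n)} {h : PastL n} {a b : Fin n → Bool}
    {q : List ((Fin n → Bool) × View n)} {R : List (Rec n)} {B B' : ℕ}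
    (P : Phase A c ρ Y T h a q R b X T' B) (hB : B ≤ B') :
    Phase A c ρ Y T h a q R b X T' B' :=
  { P with recB := fun r hr => (P.recB r hr).trans hB }

lemma lv_mono {K l N M K' l' N' M' : ℕ} (h : Lv A c ρ K l N M) (hK : K ≤ K') (hl : l ≤ l')
    (hN : N' ≤ N) (hM : M ≤ M') : Lv A c ρ K' l' N' M' := by
  intro Y p a hY
  obtain ⟨q, R, b, X, h1, h2, h3, h4⟩ := h Y p a (by omega)
  exact ⟨q, R, b, X, h1.mono hK, h2.trans hl, hN.trans h3, h4.trans hM⟩

/-- one round without moves before the front; the directions which were not active become active -/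
lemma react (hA : ValidL A) {Y T : Finset (Fin n)} (hTY : T ⊆ Y) (h : PastL n) (a : Fin n → Bool)
    (hc : ρ + 1 ≤ T.card) :
    ∃ (I : Finset (Fin n)) (q : List ((Fin n → Bool) × View n)) (R : List (Rec n))
      (b : Fin n → Bool), I ⊆ T ∧ I.card = ρ + 1 ∧ q.length = ρ + 1 ∧
      R.length ≤ (ρ + 1) * bc n ρ ∧
      Phase A c ρ Y T h a q R b I (Y \ I) ((Y \ T).card + 2 * ρ) := by
  obtain ⟨J, I, q, R, hJT, hJc, hIS, hIc, hq, hR, P⟩ :=
    round_phase (c := c) (ρ := ρ) hA hTY a h (N₀ := 0) (by omega) (fun J => Y \ (T \ J)) (fun _ => ∅)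
      (fun _ _ _ => Subset.refl _) (fun _ _ _ => ⟨empty_subset _, disjoint_empty_left _⟩)
  rw [card_eq_zero] at hJc
  subst hJc
  have e1 : ((T \ ∅) \ I) ∪ (Y \ (T \ ∅)) = Y \ I := by
    rw [sdiff_empty]
    rw [sdiff_empty] at hIS
    ext i
    simp only [mem_union, mem_sdiff]
    have h1 := @hTY i
    have h2 := @hIS i
    tauto
  have e2 : I ∪ (∅ : Finset (Fin n)) = I := union_empty I
  rw [e1, e2] at P
  refine ⟨I, q, R, _, hIS.trans sdiff_subset, hIc, by omega, ?_, P.mono (by omega)⟩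
  rw [zero_add] at hR
  exact hR

lemma lv_zero (hA : ValidL A) : Lv A c ρ (2 * ρ) (ρ + 1) 1 ((ρ + 1) * bc n ρ) := by
  intro Y h a hY
  obtain ⟨I, q, R, b, hI, hIc, hq, hR, P⟩ :=
    react (c := c) (ρ := ρ) hA (Subset.refl Y) h a (by omega)
  exact ⟨q, R, b, I, P.mono (by simp), hIc.le, by omega, hR⟩

/-- **The next level.** -/
lemma lv_succ (hA : ValidL A) {k K l N M m N₀ Jm : ℕ} (hk : 1 ≤ k) (hn : n < (Jm + 1) * N₀)
    (hm : 2 * M * (2 * k + 1) ^ m < (2 * k + 2) ^ m) (h : Lv A c ρ K l N M) :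
    Lv A c ρ (K + K / k + N₀ + 2 * ρ + 2 * ((ρ + 2) * (m * (Jm + 1) + Jm + 1)) + 2 * l)
      ((ρ + 2) * (m * (Jm + 1) + Jm + 1) + (ρ + 1)) (2 * N)
      (2 * M + (m * (Jm + 1) + Jm + 1) * ((N₀ + (ρ + 1)) * bc n ρ) + (ρ + 1) * bc n ρ) := by
  intro Y p a hY
  set β := (ρ + 2) * (m * (Jm + 1) + Jm + 1) with hβ
  have hd0 : (0 : ℤ) ≤ (K : ℤ) / (k : ℤ) := by positivity
  have hβ0 : (0 : ℤ) ≤ ((ρ + 2 : ℕ) : ℤ) * ((m * (Jm + 1) + Jm + 1 : ℕ) : ℤ) := by positivity
  obtain ⟨q₁, R₁, b₁, X₁, P₁, c₁, n₁, m₁⟩ := h Y p a (by omega)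
  have hY₁ : (Y \ X₁).card + X₁.card = Y.card := card_sdiff_add_card_eq_card P₁.sub
  obtain ⟨q₂, R₂, b₂, X₂, P₂, c₂, n₂, m₂⟩ := h (Y \ X₁) (pstL c p q₁) b₁ (by omega)
  have hY₂ : ((Y \ X₁) \ X₂).card + X₂.card = (Y \ X₁).card := card_sdiff_add_card_eq_card P₂.sub
  obtain ⟨q₃, R₃, b₃, X₃, P₃, c₃, m₃, v₃⟩ :=
    wipeL (c := c) (ρ := ρ) hA (K := K) hk hn m Jm ((Y \ X₁) \ X₂) ((Y \ X₁) \ X₂) (R₁ ++ R₂)
      (pstL c (pstL c p q₁) q₂) b₂ (Subset.refl _)
      (by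
        intro r hr
        rcases List.mem_append.1 hr with hr | hr
        · exact (card_le_card (sdiff_subset_sdiff (sdiff_subset.trans sdiff_subset)
            (Subset.refl _))).trans (P₁.recB r hr)
        · exact (card_le_card (sdiff_subset_sdiff sdiff_subset (Subset.refl _))).trans
            (P₂.recB r hr))
      (by
        rw [List.length_append]
        calc (R₁.length + R₂.length) * (2 * k + 1) ^ m
            ≤ (2 * M) * (2 * k + 1) ^ m := Nat.mul_le_mul_right _ (by omega)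
          _ < _ := hm)
      (by rw [sdiff_self]; exact empty_subset _)
      (lt_of_le_of_lt ((mu_le _ _ _ _ _).trans ((card_le_univ _).trans (by simp))) hn)
      (by rw [← hβ]; omega)
  rw [← hβ] at P₃ c₃
  have hX₃ : ∀ x ∈ X₃, x ∉ X₁ ∧ x ∉ X₂ := fun x hx =>
    ⟨(mem_sdiff.1 (mem_sdiff.1 (P₃.sub hx)).1).2, (mem_sdiff.1 (P₃.sub hx)).2⟩
  -- the second and third parts
  have P₂₃ := P₂.glue (X := X₃) P₃ (P₃.sub.trans sdiff_subset)
    (by
      intro r hr
      obtain ⟨x, hx, h1, h2⟩ := v₃ r (List.mem_append_right _ hr)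
      exact ⟨x, hx, mem_filter.2 ⟨h1, fun h' => (hX₃ x hx).2 h'.1⟩, h2⟩)
    P₃.wipes (B := K + K / k + N₀ + 2 * ρ + β + l) (by omega) (by omega)
  -- the first three parts
  have P₁₃ := P₁.glue (X := X₃) P₂₃ (P₃.sub.trans (sdiff_subset.trans sdiff_subset))
    (by
      intro r hr
      obtain ⟨x, hx, h1, h2⟩ := v₃ r (List.mem_append_left _ hr)
      exact ⟨x, hx, mem_filter.2 ⟨h1, fun h' => (hX₃ x hx).1 h'.1⟩, h2⟩)
    P₂₃.wipes (B := K + K / k + N₀ + 2 * ρ + β + 2 * l) (by omega) (by omega)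
  -- the last part
  have hT : ((Y \ X₁) \ X₂) \ X₃ ⊆ Y \ X₃ :=
    sdiff_subset_sdiff (sdiff_subset.trans sdiff_subset) (Subset.refl _)
  have hTc : (((Y \ X₁) \ X₂) \ X₃).card + X₃.card = ((Y \ X₁) \ X₂).card :=
    card_sdiff_add_card_eq_card P₃.sub
  have hYT : ((Y \ X₃) \ (((Y \ X₁) \ X₂) \ X₃)).card ≤ 2 * l := by
    have h1 : (Y \ X₃) \ (((Y \ X₁) \ X₂) \ X₃) ⊆ X₁ ∪ X₂ := by
      intro i hi
      simp only [mem_sdiff, mem_union] at hi ⊢
      tauto
    have h2 := card_le_card h1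
    have h3 := card_union_le X₁ X₂
    omega
  obtain ⟨I, q₄, R₄, b₄, hI, hIc, hq₄, hR₄, P₄⟩ :=
    react (c := c) (ρ := ρ) hA hT (pstL c p (q₁ ++ (q₂ ++ q₃))) b₃ (by omega)
  have P := P₁₃.glue_keep P₄
    (B := K + K / k + N₀ + 2 * ρ + 2 * β + 2 * l) (by omega) (by omega)
  have hTT : (Y \ X₃) \ I = Y \ (X₃ ∪ I) := by
    ext i; simp only [mem_sdiff, mem_union]; tauto
  rw [hTT] at P
  refine ⟨_, _, _, _, P, ?_, ?_, ?_⟩
  · have h1 := card_union_le X₃ I
    omega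
  · simp only [List.length_append]
    omega
  · simp only [List.length_append, List.length_map]
    omega

end Pool.Agent.J4H72.LA
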