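import Pool.Agent.TH70.AR.Run
set_option autoImplicit false

/-!
# Looking ahead: views, plays, coverage

`look σ ρ p` shows, for all vertices `z` that can be reached from `p` by at most `ρ` pivots in the
directions given by `σ`, the set `σ z`.
-/

namespace Pool.Agent.J4H72.LA

open Finset Pool.Agent.TH70.AR

variable {n : ℕ}

/-- the vertex that differs from `x` exactly in the coordinates of `D` -/
def tog (x : Fin n → Bool) (D : Finset (Fin n)) : Fin n → Bool := fun i => if i ∈ D then !x i else x i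

lemma tog_mem {x : Fin n → Bool} {D : Finset (Fin n)} {i : Fin n} (h : i ∈ D) : tog x D i = !x i :=
  if_pos h

lemma tog_notMem {x : Fin n → Bool} {D : Finset (Fin n)} {i : Fin n} (h : i ∉ D) :
    tog x D i = x i := if_neg h

lemma tog_empty (x : Fin n → Bool) : tog x ∅ = x := by
  funext i; exact tog_notMem (by simp)

lemma tog_ne_iff {x : Fin n → Bool} {D : Finset (Fin n)} {i : Fin n} : tog x D i ≠ x i ↔ i ∈ D := by
  by_cases h : i ∈ D
  · simp [tog_mem h, h]
  · simp [tog_notMem h, h]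

lemma tog_eq_iff {x : Fin n → Bool} {D : Finset (Fin n)} {i : Fin n} : tog x D i = x i ↔ i ∉ D := by
  rw [← not_iff_not, not_not]; exact tog_ne_iff

lemma tog_ne_tog {x : Fin n → Bool} {D E : Finset (Fin n)} {i : Fin n} :
    tog x D i ≠ tog x E i ↔ ¬ (i ∈ D ↔ i ∈ E) := by
  by_cases h : i ∈ D <;> by_cases h' : i ∈ E <;> simp [tog, h, h']

lemma tog_union {x : Fin n → Bool} {D E : Finset (Fin n)} (h : Disjoint D E) :
    tog (tog x D) E = tog x (D ∪ E) := by
  funext i
  by_cases h1 : i ∈ E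
  · have h2 : i ∉ D := fun h2 => (disjoint_left.1 h h2 h1)
    simp [tog, h1, h2]
  · simp [tog, h1]

lemma flip_eq_tog (x : Fin n → Bool) (i : Fin n) : flip x i = tog x {i} := by
  funext j
  by_cases h : j = i
  · subst h; rw [flip_self, tog_mem (by simp)]
  · rw [flip_of_ne _ h, tog_notMem (by simpa using h)]

lemma flip_tog (x : Fin n → Bool) (D : Finset (Fin n)) (i : Fin n) :
    flip (tog x D) i = tog x (if i ∈ D then D.erase i else insert i D) := by
  funext j
  by_cases h : j = i
  · subst h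
    rw [flip_self]
    by_cases h1 : j ∈ D <;> simp [tog, h1]
  · rw [flip_of_ne _ h]
    by_cases h1 : i ∈ D <;> simp [tog, h1, h]

/-- `z` is reached from `p` by at most `m` pivots in directions of `σ` -/
def Rch (σ : (Fin n → Bool) → Finset (Fin n)) : ℕ → (Fin n → Bool) → (Fin n → Bool) → Prop
  | 0, p, z => z = p
  | m + 1, p, z => Rch σ m p z ∨ ∃ y, Rch σ m p y ∧ ∃ i ∈ σ y, z = flip y i

/-- what a vertex may show of the other vertices -/
abbrev View (n : ℕ) := (Fin n → Bool) → Option (Finset (Fin n))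

open Classical in
/-- the sets `σ z` at all vertices `z` reached by at most `ρ` pivots -/
noncomputable def look (σ : (Fin n → Bool) → Finset (Fin n)) (ρ : ℕ) (p : Fin n → Bool) : View n :=
  fun z => if Rch σ ρ p z then some (σ z) else none

lemma rch_refl (σ : (Fin n → Bool) → Finset (Fin n)) (m : ℕ) (p : Fin n → Bool) : Rch σ m p p := by
  induction m with
  | zero => rfl
  | succ m ih => exact Or.inl ih

lemma look_self (σ : (Fin n → Bool) → Finset (Fin n)) (ρ : ℕ) (p : Fin n → Bool) :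
    look σ ρ p p = some (σ p) := by
  classical
  exact if_pos (rch_refl σ ρ p)

lemma rch_mono {σ : (Fin n → Bool) → Finset (Fin n)} {m m' : ℕ} {p z : Fin n → Bool}
    (h : Rch σ m p z) (hm : m ≤ m') : Rch σ m' p z := by
  induction hm with
  | refl => exact h
  | step _ ih => exact Or.inl ih

lemma rch_congr {σ σ' : (Fin n → Bool) → Finset (Fin n)} {ρ : ℕ} {p : Fin n → Bool}
    (h : ∀ z, Rch σ ρ p z → σ z = σ' z) (m : ℕ) (hm : m ≤ ρ) (z : Fin n → Bool) :
    Rch σ m p z ↔ Rch σ' m p z := by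
  induction m generalizing z with
  | zero => exact Iff.rfl
  | succ m ih =>
    have ih' := ih (by omega)
    constructor
    · rintro (h1 | ⟨y, h1, i, h2, h3⟩)
      · exact Or.inl ((ih' z).1 h1)
      · refine Or.inr ⟨y, (ih' y).1 h1, i, ?_, h3⟩
        rw [← h y (rch_mono h1 (by omega))]; exact h2
    · rintro (h1 | ⟨y, h1, i, h2, h3⟩)
      · exact Or.inl ((ih' z).2 h1)
      · have h4 := (ih' y).2 h1
        refine Or.inr ⟨y, h4, i, ?_, h3⟩
        rw [h y (rch_mono h4 (by omega))]; exact h2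

lemma look_congr {σ σ' : (Fin n → Bool) → Finset (Fin n)} {ρ : ℕ} {p : Fin n → Bool}
    (h : ∀ z, Rch σ ρ p z → σ z = σ' z) : look σ ρ p = look σ' ρ p := by
  classical
  funext z
  have h1 := rch_congr h ρ le_rfl z
  by_cases hz : Rch σ ρ p z
  · simp only [look]
    rw [if_pos hz, if_pos (h1.1 hz), h z hz]
  · simp only [look]
    rw [if_neg hz, if_neg (fun h2 => hz (h1.2 h2))]

/-- what a rule with look-ahead sees: the visited vertices, their values and their views, the
current vertex first -/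
abbrev PastL (n : ℕ) := List ((Fin n → Bool) × ℕ × View n)

/-- the rule chooses an improving direction -/
def ValidL (A : PastL n → Fin n) : Prop :=
  ∀ (x : Fin n → Bool) (c : ℕ) (g : View n) (l : PastL n) (S : Finset (Fin n)),
    g x = some S → S.Nonempty → A ((x, c, g) :: l) ∈ S

/-- the rule `A` visits the vertices of the list, from `a` to `b`, with the past `h` before `a` -/
def Play (A : PastL n → Fin n) (c : ℕ → ℕ) :
    PastL n → (Fin n → Bool) → List ((Fin n → Bool) × View n) → (Fin n → Bool) → Prop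
  | _, a, [], b => a = b
  | h, a, v :: q, b => v.1 = a ∧ (∃ S, v.2 a = some S ∧ S.Nonempty) ∧
      Play A c ((a, c h.length, v.2) :: h) (flip a (A ((a, c h.length, v.2) :: h))) q b

/-- the past after the visits `q` -/
def pstL (c : ℕ → ℕ) : PastL n → List ((Fin n → Bool) × View n) → PastL n
  | h, [] => h
  | h, v :: q => pstL c ((v.1, c h.length, v.2) :: h) q

variable {A : PastL n → Fin n} {c : ℕ → ℕ}

lemma play_append {p q : List ((Fin n → Bool) × View n)} {h : PastL n} {a b d : Fin n → Bool}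
    (hp : Play A c h a p d) (hq : Play A c (pstL c h p) d q b) : Play A c h a (p ++ q) b := by
  induction p generalizing h a with
  | nil =>
    simp only [Play] at hp
    subst hp
    simpa [pstL] using hq
  | cons r p ih =>
    simp only [Play, List.cons_append] at hp ⊢
    obtain ⟨h1, h2, h3⟩ := hp
    refine ⟨h1, h2, ih h3 ?_⟩
    rw [← h1]
    simpa [pstL] using hq

/-- the records `R` determine the view of the visited vertex `v` -/
def Cov (ρ : ℕ) (R : List (Rec n)) (v : (Fin n → Bool) × View n) : Prop :=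
  ∃ (Y : Finset (Fin n)) (σ : (Fin n → Bool) → Finset (Fin n)),
    (∀ D ⊆ Y, D.card ≤ ρ → σ (tog v.1 D) ⊆ Y ∧ ∃ r ∈ R, r.w = tog v.1 D ∧ r.S = σ (tog v.1 D)) ∧
    v.2 = look σ ρ v.1

/-- the records `R` contain the uniform ball around `a` in the active directions `T` -/
def Ball (ρ : ℕ) (R : List (Rec n)) (a : Fin n → Bool) (T : Finset (Fin n)) : Prop :=
  ∀ D ⊆ T, D.card ≤ ρ → ∃ r ∈ R, r.w = tog a D ∧ r.S = T \ D

/-- up to the wiping directions the records `R` are among the records `R'` -/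
def Sub (R R' : List (Rec n)) : Prop := ∀ r ∈ R, ∃ r' ∈ R', r'.w = r.w ∧ r'.S = r.S

lemma Cov.mono {ρ : ℕ} {R R' : List (Rec n)} {v : (Fin n → Bool) × View n} (h : Cov ρ R v)
    (hs : Sub R R') : Cov ρ R' v := by
  obtain ⟨Y, σ, h1, h2⟩ := h
  refine ⟨Y, σ, fun D hD hc => ?_, h2⟩
  obtain ⟨h3, r, h4, h5, h6⟩ := h1 D hD hc
  obtain ⟨r', h7, h8, h9⟩ := hs r h4
  exact ⟨h3, r', h7, h8.trans h5, h9.trans h6⟩

lemma Ball.mono {ρ : ℕ} {R R' : List (Rec n)} {a : Fin n → Bool} {T : Finset (Fin n)}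
    (h : Ball ρ R a T) (hs : Sub R R') : Ball ρ R' a T := by
  intro D hD hc
  obtain ⟨r, h4, h5, h6⟩ := h D hD hc
  obtain ⟨r', h7, h8, h9⟩ := hs r h4
  exact ⟨r', h7, h8.trans h5, h9.trans h6⟩

lemma Sub.of_subset {R R' : List (Rec n)} (h : R ⊆ R') : Sub R R' := fun r hr => ⟨r, h hr, rfl, rfl⟩

lemma Sub.trans {R R' R'' : List (Rec n)} (h : Sub R R') (h' : Sub R' R'') : Sub R R'' := by
  intro r hr
  obtain ⟨r', h1, h2, h3⟩ := h r hr
  obtain ⟨r'', h4, h5, h6⟩ := h' r' h1
  exact ⟨r'', h4, h5.trans h2, h6.trans h3⟩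

lemma sub_map_cl (R : List (Rec n)) (X : Finset (Fin n)) (b : Fin n → Bool) :
    Sub R (R.map (cl X b)) := fun r hr => ⟨cl X b r, List.mem_map_of_mem hr, rfl, rfl⟩

lemma Sub.append {R₁ R₂ R₁' R₂' : List (Rec n)} (h : Sub R₁ R₁') (h' : Sub R₂ R₂') :
    Sub (R₁ ++ R₂) (R₁' ++ R₂') := by
  intro r hr
  rcases List.mem_append.1 hr with hr | hr
  · obtain ⟨r', h1, h2⟩ := h r hr
    exact ⟨r', List.mem_append_left _ h1, h2⟩
  · obtain ⟨r', h1, h2⟩ := h' r hr
    exact ⟨r', List.mem_append_right _ h1, h2⟩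

/-- the view is the one of every orientation that satisfies the records -/
lemma Cov.look {ρ : ℕ} {R : List (Rec n)} {v : (Fin n → Bool) × View n} (h : Cov ρ R v)
    {σ' : (Fin n → Bool) → Finset (Fin n)} (hs : ∀ r ∈ R, σ' r.w = r.S) :
    v.2 = look σ' ρ v.1 := by
  obtain ⟨Y, σ, h1, h2⟩ := h
  rw [h2]
  have key : ∀ m ≤ ρ, ∀ z, Rch σ m v.1 z → ∃ D ⊆ Y, D.card ≤ m ∧ z = tog v.1 D := by
    intro m
    induction m with
    | zero =>
      intro _ z hz
      exact ⟨∅, empty_subset _, by simp, by rw [tog_empty]; exact hz⟩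
    | succ m ih =>
      intro hm z hz
      rcases hz with hz | ⟨y, hy, i, hi, rfl⟩
      · obtain ⟨D, h3, h4, h5⟩ := ih (by omega) z hz
        exact ⟨D, h3, by omega, h5⟩
      · obtain ⟨D, h3, h4, rfl⟩ := ih (by omega) y hy
        have hiY : i ∈ Y := (h1 D h3 (by omega)).1 hi
        refine ⟨_, ?_, ?_, flip_tog _ _ _⟩
        · split_ifs
          · exact (erase_subset _ _).trans h3
          · exact insert_subset hiY h3
        · split_ifs
          · exact (card_le_card (erase_subset _ _)).trans (by omega)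
          · exact (card_insert_le _ _).trans (by omega)
  apply look_congr
  intro z hz
  obtain ⟨D, h3, h4, rfl⟩ := key ρ le_rfl z hz
  obtain ⟨-, r, h5, h6, h7⟩ := h1 D h3 h4
  rw [← h7, ← h6, hs r h5]

end Pool.Agent.J4H72.LA
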