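import Pool.Agent.J4H72.LA.Level
set_option autoImplicit false

/-!
# All levels, with explicit parameters
-/

namespace Pool.Agent.J4H72.LA

open Finset Pool.Agent.TH70.AR

variable {n : ℕ} {A : PastL n → Fin n} {c : ℕ → ℕ} {ρ : ℕ}

/-- at most `(n + 1) ^ ρ` sets have at most `ρ` elements -/
lemma bc_le (n ρ : ℕ) : bc n ρ ≤ (n + 1) ^ ρ := by
  classical
  induction ρ with
  | zero =>
    have h : sml 0 (univ : Finset (Fin n)) ⊆ {∅} := by
      intro D hD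
      rw [mem_sml] at hD
      rw [mem_singleton, ← card_eq_zero]
      omega
    have := card_le_card h
    rw [card_singleton] at this
    simpa [bc] using this
  | succ ρ ih =>
    have h : sml (ρ + 1) (univ : Finset (Fin n)) ⊆
        ((sml ρ (univ : Finset (Fin n))) ×ˢ (univ : Finset (Option (Fin n)))).image
          (fun p => p.1 ∪ p.2.toFinset) := by
      intro D hD
      rw [mem_sml] at hD
      rw [mem_image]
      rcases Finset.eq_empty_or_nonempty D with rfl | ⟨x, hx⟩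
      · exact ⟨(∅, none), mem_product.2 ⟨mem_sml.2 ⟨subset_univ _, by simp⟩, mem_univ _⟩, by simp⟩
      · refine ⟨(D.erase x, some x), mem_product.2 ⟨mem_sml.2 ⟨subset_univ _, ?_⟩, mem_univ _⟩, ?_⟩
        · rw [card_erase_of_mem hx]; omega
        · ext y
          simp only [Option.toFinset_some, mem_union, mem_erase, mem_singleton]
          constructor
          · rintro (h | rfl)
            · exact h.2
            · exact hx
          · intro h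
            by_cases hy : y = x
            · exact Or.inr hy
            · exact Or.inl ⟨hy, h⟩
    calc bc n (ρ + 1) ≤ _ := card_le_card h
      _ ≤ ((sml ρ (univ : Finset (Fin n))) ×ˢ (univ : Finset (Option (Fin n)))).card :=
          card_image_le
      _ = bc n ρ * (n + 1) := by
          rw [card_product, card_univ, Fintype.card_option, Fintype.card_fin]; rfl
      _ ≤ (n + 1) ^ ρ * (n + 1) := Nat.mul_le_mul_right _ ih
      _ = (n + 1) ^ (ρ + 1) := by ring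

/-- all levels up to `k` -/
lemma lv_all (hA : ValidL A) {k N₀ Jm b : ℕ} (hn : n < (Jm + 1) * N₀)
    (m β l B Q : ℕ) (hm : m = (2 * (2 * k + 1) + 1) * b) (hβ : β = m * (Jm + 1) + Jm + 1)
    (hl : l = (ρ + 2) * β + (ρ + 1)) (hB : B = N₀ + 2 * ρ + 2 * ((ρ + 2) * β) + 2 * l)
    (hQ : Q = (β + 1) * ((N₀ + (ρ + 1)) * bc n ρ)) (hb : 2 ^ (k + 1) * Q ≤ 2 ^ b)
    (j : ℕ) (hj : j ≤ k) :
    ∃ M, M + Q ≤ 2 ^ (j + 1) * Q ∧ Lv A c ρ ((2 * j + 1) * B) l (2 ^ j) M := by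
  have hbc : 0 < bc n ρ := by
    rw [bc, card_pos]
    exact ⟨∅, mem_sml.2 ⟨subset_univ _, by simp⟩⟩
  have hQ' : Q = β * ((N₀ + (ρ + 1)) * bc n ρ) + (ρ + 1) * bc n ρ + N₀ * bc n ρ := by
    rw [hQ]; ring
  have hρbc : 0 < (ρ + 1) * bc n ρ := by positivity
  have hQ0 : 0 < Q := by rw [hQ']; omega
  induction j with
  | zero =>
    refine ⟨Q, by rw [zero_add, pow_one]; omega, lv_mono (lv_zero hA) ?_ ?_ (by simp) ?_⟩
    · rw [hB]; omega
    · rw [hl]; exact Nat.le_add_left _ _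
    · rw [hQ']
      have h1 := Nat.zero_le (β * ((N₀ + (ρ + 1)) * bc n ρ))
      have h2 := Nat.zero_le (N₀ * bc n ρ)
      omega
  | succ j ih =>
    obtain ⟨M, hM, hLv⟩ := ih (by omega)
    have h1 : 2 * M < 2 ^ b := by
      have h2 : 2 ^ (j + 1) * Q ≤ 2 ^ k * Q :=
        Nat.mul_le_mul_right _ (Nat.pow_le_pow_right (by norm_num) (by omega))
      have h3 : 2 ^ (k + 1) * Q = 2 * (2 ^ k * Q) := by ring
      omega
    have h4 := lv_succ (c := c) (ρ := ρ) hA (k := 2 * k + 1) (m := m) (N₀ := N₀) (Jm := Jm)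
      (by omega) hn (M := M) (by
        rw [hm]
        exact lt_of_lt_of_le (Nat.mul_lt_mul_of_pos_right h1 (by positivity))
          (two_pow_mul_le (2 * k + 1) b)) hLv
    rw [← hβ] at h4
    refine ⟨_, ?_, lv_mono h4 ?_ (by rw [hl]) (by rw [pow_succ]; omega) le_rfl⟩
    · have h5 : 2 ^ (j + 1 + 1) * Q = 2 * (2 ^ (j + 1) * Q) := by ring
      rw [h5]
      have h6 := Nat.zero_le (N₀ * bc n ρ)
      omega
    · have h5 : (2 * j + 1) * B / (2 * k + 1) ≤ B := by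
        apply Nat.div_le_of_le_mul
        exact Nat.mul_le_mul_right _ (by omega)
      have h6 : (2 * (j + 1) + 1) * B = (2 * j + 1) * B + B + B := by ring
      rw [h6]
      omega

/-- the top level -/
lemma lv_top (hA : ValidL A) {k : ℕ}
    (hn : 544 * (ρ + 2) * (k + 1) ^ 3 * (k + 1 + (ρ + 2) * (Nat.log 2 n + 1)) ≤ n) :
    ∃ K l M, K < n ∧ Lv A c ρ K l (2 ^ k) M := by
  obtain ⟨b, hb⟩ : ∃ b, b = k + 1 + (ρ + 2) * (Nat.log 2 n + 1) := ⟨_, rfl⟩
  rw [← hb] at hn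
  have hb1 : 1 ≤ b := by rw [hb]; omega
  obtain ⟨N₀, hN₀⟩ : ∃ N₀, N₀ = n / (4 * k + 2) := ⟨_, rfl⟩
  obtain ⟨m, hm⟩ : ∃ m, m = (2 * (2 * k + 1) + 1) * b := ⟨_, rfl⟩
  obtain ⟨β, hβ⟩ : ∃ β, β = m * ((8 * k + 3) + 1) + (8 * k + 3) + 1 := ⟨_, rfl⟩
  obtain ⟨l, hl⟩ : ∃ l, l = (ρ + 2) * β + (ρ + 1) := ⟨_, rfl⟩
  obtain ⟨B, hB⟩ : ∃ B, B = N₀ + 2 * ρ + 2 * ((ρ + 2) * β) + 2 * l := ⟨_, rfl⟩
  obtain ⟨Q, hQ⟩ : ∃ Q, Q = (β + 1) * ((N₀ + (ρ + 1)) * bc n ρ) := ⟨_, rfl⟩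
  -- the frozen coordinates
  have hβ1 : β + 1 ≤ 17 * (k + 1) * (2 * k + 1) * b := by
    rw [hβ, hm]
    nlinarith [Nat.mul_le_mul_left (k * k) hb1, Nat.mul_le_mul_left k hb1]
  have hD : 2 * (2 * k + 1) * (4 * ((ρ + 2) * β) + (4 * ρ + 2)) < n := by
    calc 2 * (2 * k + 1) * (4 * ((ρ + 2) * β) + (4 * ρ + 2))
        < 2 * (2 * k + 1) * (4 * ((ρ + 2) * (β + 1))) := by
          apply Nat.mul_lt_mul_of_pos_left _ (by positivity)
          ring_nf
          omega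
      _ ≤ 2 * (2 * k + 1) * (4 * ((ρ + 2) * (17 * (k + 1) * (2 * k + 1) * b))) := by gcongr
      _ = 136 * ((ρ + 2) * ((k + 1) * (2 * k + 1) ^ 2) * b) := by ring
      _ ≤ 136 * ((ρ + 2) * (4 * (k + 1) ^ 3) * b) := by
          refine Nat.mul_le_mul_left _ (Nat.mul_le_mul_right _ (Nat.mul_le_mul_left _ ?_))
          nlinarith [Nat.zero_le k, Nat.zero_le (k * k)]
      _ = 544 * (ρ + 2) * (k + 1) ^ 3 * b := by ring
      _ ≤ n := hn
  have hN1 : (4 * k + 2) * N₀ ≤ n := by rw [hN₀]; exact Nat.mul_div_le n _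
  have hN2 : n < (4 * k + 2) * (N₀ + 1) := by
    rw [hN₀]
    exact Nat.lt_mul_div_succ n (by omega)
  have hn4 : 4 * k + 2 ≤ n := by
    refine le_trans ?_ hD.le
    calc 4 * k + 2 = 2 * (2 * k + 1) * 1 := by ring
      _ ≤ _ := Nat.mul_le_mul_left _ (by omega)
  have hN3 : 1 ≤ N₀ := by
    rw [hN₀]
    exact (Nat.one_le_div_iff (by omega)).2 hn4
  have hn' : n < ((8 * k + 3) + 1) * N₀ := by nlinarith
  have hK : (2 * k + 1) * B < n := by
    have h1 : 2 * ((2 * k + 1) * B) = (4 * k + 2) * N₀ +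
        2 * (2 * k + 1) * (4 * ((ρ + 2) * β) + (4 * ρ + 2)) := by rw [hB, hl]; ring
    omega
  -- the number of records
  have hD' : 2 * (4 * ((ρ + 2) * β) + (4 * ρ + 2)) < n := by
    refine lt_of_le_of_lt ?_ hD
    have : 2 ≤ 2 * (2 * k + 1) := by omega
    exact Nat.mul_le_mul_right _ this
  have hβn : β ≤ n := by nlinarith [Nat.zero_le (ρ * β)]
  have hρn : N₀ + ρ ≤ n := by nlinarith [Nat.zero_le (ρ * β), Nat.zero_le (k * N₀)]
  have hQn : Q ≤ (n + 1) ^ (ρ + 2) := by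
    calc Q = (β + 1) * ((N₀ + (ρ + 1)) * bc n ρ) := hQ
      _ ≤ (n + 1) * ((n + 1) * (n + 1) ^ ρ) := by
          refine Nat.mul_le_mul (by omega) (Nat.mul_le_mul (by omega) (bc_le n ρ))
      _ = (n + 1) ^ (ρ + 2) := by ring
  have hlog : n + 1 ≤ 2 ^ (Nat.log 2 n + 1) := Nat.lt_pow_succ_log_self (by norm_num) n
  have hQb : 2 ^ (k + 1) * Q ≤ 2 ^ b := by
    calc 2 ^ (k + 1) * Q ≤ 2 ^ (k + 1) * (n + 1) ^ (ρ + 2) := Nat.mul_le_mul_left _ hQn
      _ ≤ 2 ^ (k + 1) * (2 ^ (Nat.log 2 n + 1)) ^ (ρ + 2) :=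
          Nat.mul_le_mul_left _ (Nat.pow_le_pow_left hlog _)
      _ = 2 ^ b := by rw [← pow_mul, ← pow_add, hb, mul_comm (Nat.log 2 n + 1)]
  obtain ⟨M, -, h⟩ := lv_all (c := c) hA hn' m β l B Q hm hβ hl hB hQ hQb k le_rfl
  exact ⟨_, _, _, hK, h⟩

end Pool.Agent.J4H72.LA
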