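import Pool.Agent.J4H72.LA.Round
set_option autoImplicit false

/-!
# Phases and their composition
-/

namespace Pool.Agent.J4H72.LA

open Finset Pool.Agent.TH70.AR

variable {n : ℕ} {A : PastL n → Fin n} {c : ℕ → ℕ} {ρ : ℕ}

/-- A phase: free coordinates `Y`, active directions `T` at the vertex `a`; the visits `q` lead to `b`;
the records `R` can be extended, they are wiped by freezing `X` at `b`, and together with the uniform
ball around `b` in the directions `T'` they determine everything seen, and contain the uniform ball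
around `a`; every record has at most `B` useless directions. -/
structure Phase (A : PastL n → Fin n) (c : ℕ → ℕ) (ρ : ℕ) (Y T : Finset (Fin n)) (h : PastL n)
    (a : Fin n → Bool) (q : List ((Fin n → Bool) × View n)) (R : List (Rec n)) (b : Fin n → Bool)
    (X T' : Finset (Fin n)) (B : ℕ) : Prop where
  play : Play A c h a q b
  ext : Ext Y R
  sub : X ⊆ Y
  fix : ∀ x, x ∉ Y → b x = a x
  recS : ∀ r ∈ R, r.S ⊆ Y
  recW : ∀ r ∈ R, r.W ⊆ Y
  recB : ∀ r ∈ R, (Y \ r.W).card ≤ B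
  recw : ∀ r ∈ R, ∀ x, x ∉ Y → r.w x = a x
  wipes : ∀ r ∈ R, Wipes X b r
  cov : ∀ Rf, Ball ρ Rf b T' → (∀ v ∈ q, Cov ρ (R ++ Rf) v) ∧ Ball ρ (R ++ Rf) a T

lemma Phase.nil (A : PastL n → Fin n) (c : ℕ → ℕ) (ρ : ℕ) (Y T : Finset (Fin n)) (h : PastL n)
    (a : Fin n → Bool) (B : ℕ) : Phase A c ρ Y T h a [] [] a ∅ T B where
  play := rfl
  ext := ext_nil Y
  sub := empty_subset _
  fix := fun _ _ => rfl
  recS := by simp
  recW := by simp
  recB := by simp
  recw := by simp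
  wipes := by simp
  cov := by
    intro Rf hRf
    exact ⟨by simp, by simpa using hRf⟩

/-- **Composition of phases**: the second phase takes place in the face in which `X₁` is frozen at
`b₁`; the set `X` wipes all the records of both. -/
lemma Phase.glue {Y T X₁ T₁ X₂ T₂ X : Finset (Fin n)} {h : PastL n} {a b₁ b₂ : Fin n → Bool}
    {q₁ q₂ : List ((Fin n → Bool) × View n)} {R₁ R₂ : List (Rec n)} {B₁ B₂ B : ℕ}
    (P₁ : Phase A c ρ Y T h a q₁ R₁ b₁ X₁ T₁ B₁)
    (P₂ : Phase A c ρ (Y \ X₁) T₁ (pstL c h q₁) b₁ q₂ R₂ b₂ X₂ T₂ B₂)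
    (hX : X ⊆ Y) (hw₁ : ∀ r ∈ R₁, Wipes X b₂ (cl X₁ b₁ r)) (hw₂ : ∀ r ∈ R₂, Wipes X b₂ r)
    (hB₁ : B₁ + X₁.card ≤ B) (hB₂ : B₂ + X₁.card ≤ B) :
    Phase A c ρ Y T h a (q₁ ++ q₂) (R₁.map (cl X₁ b₁) ++ R₂) b₂ X T₂ B where
  play := play_append P₁.play P₂.play
  ext := ext_comp P₁.ext P₁.wipes P₂.ext P₂.recS P₂.recW fun r hr x hx =>
    P₂.recw r hr x fun h' => (mem_sdiff.1 h').2 hx
  sub := hX
  fix := fun x hx => (P₂.fix x fun h' => hx (mem_sdiff.1 h').1).trans (P₁.fix x hx)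
  recS := by
    intro r hr
    rcases List.mem_append.1 hr with hr | hr
    · obtain ⟨s, hs, rfl⟩ := List.mem_map.1 hr
      exact P₁.recS s hs
    · exact (P₂.recS r hr).trans sdiff_subset
  recW := by
    intro r hr
    rcases List.mem_append.1 hr with hr | hr
    · obtain ⟨s, hs, rfl⟩ := List.mem_map.1 hr
      exact (filter_subset _ _).trans (P₁.recW s hs)
    · exact (P₂.recW r hr).trans sdiff_subset
  recB := by
    intro r hr
    rcases List.mem_append.1 hr with hr | hr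
    · obtain ⟨s, hs, rfl⟩ := List.mem_map.1 hr
      have h1 : Y \ (cl X₁ b₁ s).W ⊆ (Y \ s.W) ∪ X₁ := by
        intro x hx
        rw [mem_sdiff] at hx
        rw [mem_union, mem_sdiff]
        by_cases hxX : x ∈ X₁
        · exact Or.inr hxX
        · exact Or.inl ⟨hx.1, fun hW => hx.2 (mem_filter.2 ⟨hW, fun h' => hxX h'.1⟩)⟩
      have h2 := card_le_card h1
      have h3 := card_union_le (Y \ s.W) X₁
      have h4 := P₁.recB s hs
      omega
    · have h1 : Y \ r.W ⊆ ((Y \ X₁) \ r.W) ∪ X₁ := by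
        intro x hx
        rw [mem_sdiff] at hx
        rw [mem_union, mem_sdiff, mem_sdiff]
        by_cases hxX : x ∈ X₁
        · exact Or.inr hxX
        · exact Or.inl ⟨⟨hx.1, hxX⟩, hx.2⟩
      have h2 := card_le_card h1
      have h3 := card_union_le ((Y \ X₁) \ r.W) X₁
      have h4 := P₂.recB r hr
      omega
  recw := by
    intro r hr x hx
    rcases List.mem_append.1 hr with hr | hr
    · obtain ⟨s, hs, rfl⟩ := List.mem_map.1 hr
      exact P₁.recw s hs x hx
    · rw [P₂.recw r hr x fun h' => hx (mem_sdiff.1 h').1]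
      exact P₁.fix x hx
  wipes := by
    intro r hr
    rcases List.mem_append.1 hr with hr | hr
    · obtain ⟨s, hs, rfl⟩ := List.mem_map.1 hr
      exact hw₁ s hs
    · exact hw₂ r hr
  cov := by
    intro Rf hRf
    obtain ⟨h1, h2⟩ := P₂.cov Rf hRf
    obtain ⟨h3, h4⟩ := P₁.cov _ h2
    have hs : Sub (R₁ ++ (R₂ ++ Rf)) ((R₁.map (cl X₁ b₁) ++ R₂) ++ Rf) := by
      rw [List.append_assoc]
      exact (sub_map_cl R₁ X₁ b₁).append (Sub.of_subset (List.Subset.refl _))
    have hs' : Sub (R₂ ++ Rf) ((R₁.map (cl X₁ b₁) ++ R₂) ++ Rf) := by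
      rw [List.append_assoc]
      exact Sub.of_subset (List.subset_append_right _ _)
    refine ⟨fun v hv => ?_, h4.mono hs⟩
    rcases List.mem_append.1 hv with hv | hv
    · exact (h3 v hv).mono hs
    · exact (h1 v hv).mono hs'

/-- the round as a phase -/
lemma round_phase (hA : ValidL A) {Y T : Finset (Fin n)} (hTY : T ⊆ Y) (a : Fin n → Bool)
    (h : PastL n) {N₀ : ℕ} (hc : N₀ + ρ + 1 ≤ T.card) (Act Z : Finset (Fin n) → Finset (Fin n))
    (hAct : ∀ J ⊆ T, J.card = N₀ → Act J ⊆ Y \ (T \ J))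
    (hZ : ∀ J ⊆ T, J.card = N₀ → Z J ⊆ J ∧ Disjoint (Z J) (Act J)) :
    ∃ (J I : Finset (Fin n)) (q : List ((Fin n → Bool) × View n)) (R : List (Rec n)),
      J ⊆ T ∧ J.card = N₀ ∧ I ⊆ T \ J ∧ I.card = ρ + 1 ∧ q.length = N₀ + (ρ + 1) ∧
      R.length ≤ (N₀ + (ρ + 1)) * bc n ρ ∧
      Phase A c ρ Y T h a q R (tog a (J ∪ I)) (I ∪ Z J) (((T \ J) \ I) ∪ Act J)
        ((Y \ T).card + N₀ + 2 * ρ) := by
  obtain ⟨J, I, q, R, h1, h2, h3, h4, h5, h6, h7, h8, h9, h10, h11⟩ :=
    round (c := c) hA hTY a h hc Act Z hAct hZ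
  refine ⟨J, I, q, R, h1, h2, h3, h4, h6, h8, ?_⟩
  exact
    { play := h5
      ext := h7
      sub := by
        refine union_subset ((h3.trans sdiff_subset).trans hTY) ?_
        exact ((hZ J h1 h2).1.trans h1).trans hTY
      fix := fun x hx => tog_notMem fun h' => by
        rcases mem_union.1 h' with h' | h'
        · exact hx (hTY (h1 h'))
        · exact hx (hTY (mem_sdiff.1 (h3 h')).1)
      recS := fun r hr => (h10 r hr).1
      recW := fun r hr => (h10 r hr).2.1
      recB := fun r hr => (h10 r hr).2.2.1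
      recw := fun r hr => (h10 r hr).2.2.2.1
      wipes := fun r hr => (h10 r hr).2.2.2.2.1
      cov := fun Rf hRf => ⟨h11 Rf hRf, h9.mono (Sub.of_subset (List.subset_append_left _ _))⟩ }

end Pool.Agent.J4H72.LA
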