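import Pool.Agent.J4H72.LA.Base
set_option autoImplicit false

/-!
# One round: the rule moves in a uniform orientation, then crosses a front
-/

namespace Pool.Agent.J4H72.LA

open Finset Pool.Agent.TH70.AR

variable {n : ℕ} {A : PastL n → Fin n} {c : ℕ → ℕ} {ρ : ℕ}

/-- `N` moves of the rule in the directions of `S` -/
lemma steps (hA : ValidL A) (σ : (Fin n → Bool) → Finset (Fin n)) (N : ℕ) :
    ∀ (S : Finset (Fin n)) (a : Fin n → Bool) (h : PastL n), N ≤ S.card →
      (∀ D ⊆ S, D.card < N → σ (tog a D) = S \ D) →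
      ∃ (I : Finset (Fin n)) (q : List ((Fin n → Bool) × View n)), I ⊆ S ∧ I.card = N ∧
        Play A c h a q (tog a I) ∧ q.length = N ∧
        ∀ v ∈ q, ∃ D ⊆ I, D.card < N ∧ v = (tog a D, look σ ρ (tog a D)) := by
  induction N with
  | zero =>
    intro S a h _ _
    exact ⟨∅, [], empty_subset _, rfl, (tog_empty a).symm, rfl, by simp⟩
  | succ N ih =>
    intro S a h hN hσ
    have hσa : σ a = S := by
      have := hσ ∅ (empty_subset _) (by simp)
      rwa [tog_empty, sdiff_empty] at this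
    have hSne : S.Nonempty := by rw [← card_pos]; omega
    set g : View n := look σ ρ a with hg
    have hga : g a = some S := by rw [hg, look_self, hσa]
    set i := A ((a, c h.length, g) :: h) with hi
    have hiS : i ∈ S := hA a _ g h S hga hSne
    have hdisj : ∀ D ⊆ S.erase i, Disjoint ({i} : Finset (Fin n)) D := by
      intro D hD
      rw [disjoint_singleton_left]
      exact fun h' => (mem_erase.1 (hD h')).1 rfl
    have htog : ∀ D ⊆ S.erase i, tog (tog a {i}) D = tog a (insert i D) := by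
      intro D hD
      rw [tog_union (hdisj D hD)]
      rfl
    obtain ⟨I, q, h1, h2, h3, h4, h5⟩ := ih (S.erase i) (tog a {i}) ((a, c h.length, g) :: h)
      (by rw [card_erase_of_mem hiS]; omega) (by
        intro D hD hc
        rw [htog D hD, hσ _ (insert_subset hiS (hD.trans (erase_subset _ _)))
          (lt_of_le_of_lt (card_insert_le _ _) (by omega))]
        ext x
        simp only [mem_sdiff, mem_insert, mem_erase, not_or]
        tauto)
    have hiI : i ∉ I := fun h' => (mem_erase.1 (h1 h')).1 rfl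
    refine ⟨insert i I, (a, g) :: q, insert_subset hiS (h1.trans (erase_subset _ _)),
      by rw [card_insert_of_notMem hiI, h2], ⟨rfl, ⟨S, hga, hSne⟩, ?_⟩, by simp [h4], ?_⟩
    · rw [← htog I h1]
      have : TH70.AR.flip a i = tog a {i} := flip_eq_tog a i
      change Play A c ((a, c h.length, g) :: h) (TH70.AR.flip a i) q _
      rw [this]
      exact h3
    · intro v hv
      rcases List.mem_cons.1 hv with rfl | hv
      · exact ⟨∅, empty_subset _, by simp, by rw [tog_empty]⟩
      · obtain ⟨D, h6, h7, h8⟩ := h5 v hv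
        rw [htog D (h6.trans h1)] at h8
        exact ⟨insert i D, insert_subset_insert _ h6,
          lt_of_le_of_lt (card_insert_le _ _) (by omega), h8⟩

/-- all subsets of `Y` with at most `ρ` elements -/
def sml (ρ : ℕ) (Y : Finset (Fin n)) : Finset (Finset (Fin n)) := Y.powerset.filter fun D => D.card ≤ ρ

lemma mem_sml {Y D : Finset (Fin n)} : D ∈ sml ρ Y ↔ D ⊆ Y ∧ D.card ≤ ρ := by
  rw [sml, mem_filter, mem_powerset]

/-- the number of sets with at most `ρ` elements -/
def bc (n ρ : ℕ) : ℕ := (sml ρ (univ : Finset (Fin n))).card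

lemma sml_card_le (Y : Finset (Fin n)) : (sml ρ Y).card ≤ bc n ρ := by
  apply card_le_card
  intro D hD
  rw [mem_sml] at hD ⊢
  exact ⟨subset_univ _, hD.2⟩

/-- the vertices at distance at most `ρ` from `p` in the directions of `Y` -/
noncomputable def bll (ρ : ℕ) (x : (Fin n → Bool) × Finset (Fin n)) : List (Fin n → Bool) :=
  (sml ρ x.2).toList.map (tog x.1)

lemma mem_bll {p : Fin n → Bool} {Y : Finset (Fin n)} {u : Fin n → Bool} :
    u ∈ bll ρ (p, Y) ↔ ∃ D ⊆ Y, D.card ≤ ρ ∧ u = tog p D := by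
  simp only [bll, List.mem_map, mem_toList, mem_sml]
  constructor
  · rintro ⟨D, ⟨h1, h2⟩, rfl⟩; exact ⟨D, h1, h2, rfl⟩
  · rintro ⟨D, h1, h2, rfl⟩; exact ⟨D, ⟨h1, h2⟩, rfl⟩

lemma flatMap_length {α β : Type*} (l : List α) (f : α → List β) (m : ℕ)
    (h : ∀ x ∈ l, (f x).length ≤ m) : (l.flatMap f).length ≤ l.length * m := by
  induction l with
  | nil => simp
  | cons x l ih =>
    rw [List.flatMap_cons, List.length_append, List.length_cons, add_mul, one_mul]
    have h1 := h x List.mem_cons_self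
    have h2 := ih fun y hy => h y (List.mem_cons_of_mem _ hy)
    omega

lemma tog_tog (x : Fin n → Bool) (D E : Finset (Fin n)) : tog (tog x D) E = tog x (symmDiff D E) := by
  funext i
  by_cases h1 : i ∈ D <;> by_cases h2 : i ∈ E <;> simp [tog, h1, h2, mem_symmDiff]

lemma frt_tog {a : Fin n → Bool} {S T E : Finset (Fin n)} {N : ℕ} (hS : S ⊆ T) :
    Frt (tog a T) S N (tog a E) ↔ N ≤ (S ∩ E).card := by
  unfold Frt
  have : (S.filter fun i => tog a E i = tog a T i) = S ∩ E := by
    ext i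
    rw [mem_filter, mem_inter]
    constructor
    · rintro ⟨h1, h2⟩
      refine ⟨h1, ?_⟩
      by_contra h3
      exact (tog_ne_tog.2 (by simp [h3, hS h1])) h2
    · rintro ⟨h1, h2⟩
      refine ⟨h1, ?_⟩
      by_contra h3
      exact tog_ne_tog.1 h3 (by simp [h2, hS h1])
  rw [this]

lemma pr1 {Y T J I D A D' : Prop} (h2 : J → T) (h3 : D → I) (h4 : I → T ∧ ¬ J)
    (h5 : D' → ((T ∧ ¬ J) ∧ ¬ D) ∨ A)
    (hi : Y ∧ ¬ (((J ∨ D) ∧ ¬ D' ∨ D' ∧ ¬ (J ∨ D)) ↔ T)) : ((T ∧ ¬ J) ∧ ¬ D) ∨ A := by
  grind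

lemma pr2 {Y T J I D A D' : Prop} (h2 : J → T) (h3 : D → I) (h4 : I → T ∧ ¬ J)
    (h5 : D' → ((T ∧ ¬ J) ∧ ¬ D) ∨ A)
    (hi : Y ∧ ¬ (((J ∨ D) ∧ ¬ D' ∨ D' ∧ ¬ (J ∨ D)) ↔ (T ∧ ¬ A ∨ A ∧ ¬ T))) :
    ((T ∧ ¬ J) ∧ ¬ D) ∨ A := by
  grind

lemma pr3 {Y T J I D A D' : Prop} (h1 : T → Y) (h2 : J → T) (h3 : D → I) (h4 : I → T ∧ ¬ J)
    (h5 : D' → ((T ∧ ¬ J) ∧ ¬ D) ∨ A) (h6 : I → ((J ∨ D) ∧ ¬ D' ∨ D' ∧ ¬ (J ∨ D)))
    (h7 : A → Y ∧ ¬ (T ∧ ¬ J)) :
    (Y ∧ ¬ (((J ∨ D) ∧ ¬ D' ∨ D' ∧ ¬ (J ∨ D)) ↔ (T ∧ ¬ A ∨ A ∧ ¬ T))) ↔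
    (((T ∧ ¬ J) ∧ ¬ I) ∨ A) ∧ ¬ ((J ∨ I) ∧ ¬ ((J ∨ D) ∧ ¬ D' ∨ D' ∧ ¬ (J ∨ D)) ∨
      ((J ∨ D) ∧ ¬ D' ∨ D' ∧ ¬ (J ∨ D)) ∧ ¬ (J ∨ I)) := by
  grind

lemma pr4 {J I D D' : Prop} (h3 : D → I) (h6 : I → ((J ∨ D) ∧ ¬ D' ∨ D' ∧ ¬ (J ∨ D)))
    (hi : (J ∨ I) ∧ ¬ ((J ∨ D) ∧ ¬ D' ∨ D' ∧ ¬ (J ∨ D)) ∨
      ((J ∨ D) ∧ ¬ D' ∨ D' ∧ ¬ (J ∨ D)) ∧ ¬ (J ∨ I)) : D' ∧ ¬ I := by
  grind

lemma pr5 {J D D' : Prop} (h : J ∨ ((J ∨ D) ∧ ¬ D' ∨ D' ∧ ¬ (J ∨ D))) : J ∨ (D ∨ D') := by
  grind

/-- **One round.** The state: free coordinates `Y`, current vertex `a`, active directions `T`. The rule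
makes `N₀` moves (directions `J`); then the adversary chooses directions `Act J` which will be active
beyond the front and directions `Z J` among the moved ones which will be frozen; the rule makes `ρ + 1`
more moves (directions `I`) and is beyond the front. Everything it has seen lies outside of the face in
which `I ∪ Z J` is frozen, or in the uniform ball of the new state. -/
lemma round (hA : ValidL A) {Y T : Finset (Fin n)} (hTY : T ⊆ Y) (a : Fin n → Bool) (h : PastL n)
    {N₀ : ℕ} (hc : N₀ + ρ + 1 ≤ T.card) (Act Z : Finset (Fin n) → Finset (Fin n))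
    (hAct : ∀ J ⊆ T, J.card = N₀ → Act J ⊆ Y \ (T \ J))
    (hZ : ∀ J ⊆ T, J.card = N₀ → Z J ⊆ J ∧ Disjoint (Z J) (Act J)) :
    ∃ (J I : Finset (Fin n)) (q : List ((Fin n → Bool) × View n)) (R : List (Rec n)),
      J ⊆ T ∧ J.card = N₀ ∧ I ⊆ T \ J ∧ I.card = ρ + 1 ∧
      Play A c h a q (tog a (J ∪ I)) ∧ q.length = N₀ + (ρ + 1) ∧ Ext Y R ∧
      R.length ≤ (N₀ + (ρ + 1)) * bc n ρ ∧ Ball ρ R a T ∧
      (∀ r ∈ R, r.S ⊆ Y ∧ r.W ⊆ Y ∧ (Y \ r.W).card ≤ (Y \ T).card + N₀ + 2 * ρ ∧
        (∀ x, x ∉ Y → r.w x = a x) ∧ (∃ x ∈ I ∪ Z J, x ∈ r.W ∧ tog a (J ∪ I) x ≠ r.w x) ∧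
        ∀ x ∈ I ∪ Z J, x ∈ r.W → tog a (J ∪ I) x ≠ r.w x) ∧
      ∀ Rf, Ball ρ Rf (tog a (J ∪ I)) (((T \ J) \ I) ∪ Act J) → ∀ v ∈ q, Cov ρ (R ++ Rf) v := by
  classical
  set t : Fin n → Bool := tog a T with ht
  set σ₁ : (Fin n → Bool) → Finset (Fin n) := fun z => Y.filter fun i => z i ≠ t i with hσ₁
  have hσ₁E : ∀ E : Finset (Fin n), E ⊆ T → σ₁ (tog a E) = T \ E := by
    intro E hE
    ext i
    simp only [hσ₁, mem_filter, mem_sdiff, ht, tog_ne_tog]
    have h1 := @hTY i
    have h2 := @hE i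
    tauto
  obtain ⟨J, q₁, hJT, hJc, hp₁, hl₁, hv₁⟩ := steps (c := c) (ρ := ρ) hA σ₁ N₀ T a h (by omega)
    (fun D hD _ => hσ₁E D hD)
  have hAct := hAct J hJT hJc
  have hZ := hZ J hJT hJc
  set S := T \ J with hS
  have hST : S ⊆ T := sdiff_subset
  set w := tog a J with hw
  set t' : Fin n → Bool := tog a (symmDiff T (Act J)) with ht'
  have htt : ∀ i, i ∉ Act J → t' i = t i := by
    intro i hi
    by_contra hne
    have h1 := tog_ne_tog.1 hne
    rw [mem_symmDiff] at h1
    exact h1 (by simp [hi])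
  have hSA : ∀ i ∈ S, i ∉ Act J := fun i hi h' => (mem_sdiff.1 (hAct h')).2 hi
  have httS : ∀ i ∈ S, t' i = t i := fun i hi => htt i (hSA i hi)
  set f₀ := frf t t' S (ρ + 1) with hf₀
  set σ₀ : (Fin n → Bool) → Finset (Fin n) := fun z =>
    Y.filter fun i => f₀ z < f₀ (TH70.AR.flip z i) with hσ₀
  have hneg : ∀ E : Finset (Fin n), (S ∩ E).card ≤ ρ → ∀ i,
      (i ∈ σ₀ (tog a E) ↔ i ∈ Y ∧ ¬ (i ∈ E ↔ i ∈ T)) := by
    intro E hE i
    have h1 : ¬ Frt t S (ρ + 1) (tog a E) := by
      rw [ht, frt_tog hST]; omega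
    have h2 := frf_neg (t' := t') (i := i) h1
    simp only [hσ₀, mem_filter]
    rw [hf₀, h2, ht, tog_ne_tog]
  have hpos : ∀ E : Finset (Fin n), ρ + 1 ≤ (S ∩ E).card → ∀ i,
      (i ∈ σ₀ (tog a E) ↔ i ∈ Y ∧ ¬ (i ∈ E ↔ i ∈ symmDiff T (Act J))) := by
    intro E hE i
    have h1 : Frt t S (ρ + 1) (tog a E) := by
      rw [ht, frt_tog hST]; exact hE
    have h2 := frf_pos (t' := t') (i := i) httS h1
    simp only [hσ₀, mem_filter]
    rw [hf₀, h2, ht', tog_ne_tog]
  have hwD : ∀ D : Finset (Fin n), D ⊆ S → tog w D = tog a (J ∪ D) := by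
    intro D hD
    rw [hw, tog_union]
    rw [disjoint_left]
    intro i hi hi'
    exact (mem_sdiff.1 (hD hi')).2 hi
  have hSc : S.card + N₀ = T.card := by
    rw [hS, ← hJc]; exact card_sdiff_add_card_eq_card hJT
  obtain ⟨I, q₂, hIS, hIc, hp₂, hl₂, hv₂⟩ := steps (c := c) (ρ := ρ) hA σ₀ (ρ + 1) S w (pstL c h q₁)
    (by omega) (by
      intro D hD hDc
      rw [hwD D hD]
      ext i
      rw [hneg (J ∪ D) ?_]
      · have h1 := @hTY i
        have h2 := @hD i
        have h3 := @hJT i
        simp only [hS, mem_sdiff, mem_union] at h2 ⊢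
        tauto
      · refine (card_le_card ?_).trans (Nat.lt_succ_iff.1 hDc)
        intro i hi
        rw [mem_inter, mem_union] at hi
        rcases hi.2 with h1 | h1
        · exact absurd h1 (mem_sdiff.1 hi.1).2
        · exact h1)
  rw [hwD I hIS] at hp₂
  set b := tog a (J ∪ I) with hb
  set X := I ∪ Z J with hX
  have hXT : X ⊆ T := by
    intro i hi
    rcases mem_union.1 hi with h1 | h1
    · exact hST (hIS h1)
    · exact hJT (hZ.1 h1)
  have hXb : ∀ x ∈ X, b x = t x := by
    intro x hx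
    by_contra hne
    apply tog_ne_tog.1 hne
    refine iff_of_true ?_ (hXT hx)
    rcases mem_union.1 hx with h1 | h1
    · exact mem_union_right _ h1
    · exact mem_union_left _ (hZ.1 h1)
  have hXA : ∀ x ∈ X, x ∉ Act J := by
    intro x hx
    rcases mem_union.1 hx with h1 | h1
    · exact hSA x (hIS h1)
    · exact disjoint_left.1 hZ.2 h1
  -- the vertices seen
  set Y₁ : (Fin n → Bool) → Finset (Fin n) := fun p => T.filter fun i => p i = a i with hY₁
  set Y₂ : (Fin n → Bool) → Finset (Fin n) := fun p => (S.filter fun i => p i = w i) ∪ Act J with hY₂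
  set U₀ : List (Fin n → Bool) := (q₁.flatMap fun v => bll ρ (v.1, Y₁ v.1)) ++
    (q₂.flatMap fun v => bll ρ (v.1, Y₂ v.1)) with hU₀
  set U := U₀.filter fun u => decide (¬ On X b u) with hU
  set rc : (Fin n → Bool) → Rec n := fun u =>
    ⟨u, Y.filter (fun i => f₀ u < f₀ (TH70.AR.flip u i)), (Y ∩ (univ \ Act J)).filter fun i => u i ≠ t i⟩
    with hrc
  have hmemU : ∀ u, u ∈ U ↔ u ∈ U₀ ∧ ¬ On X b u := by
    intro u
    rw [hU, List.mem_filter]
    simp
  have hY₁D : ∀ D ⊆ J, Y₁ (tog a D) = T \ D := by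
    intro D _
    ext i
    simp only [hY₁, mem_filter, mem_sdiff, tog_eq_iff]
  have hY₂D : ∀ D ⊆ I, Y₂ (tog w D) = (S \ D) ∪ Act J := by
    intro D _
    ext i
    simp only [hY₂, mem_union, mem_filter, mem_sdiff, tog_eq_iff]
  -- shape of the vertices seen
  have hshape : ∀ u ∈ U₀, ∃ E, u = tog a E ∧ E ⊆ Y ∧ (J ∪ E).card ≤ N₀ + 2 * ρ := by
    intro u hu
    rcases List.mem_append.1 hu with hu | hu
    · obtain ⟨v, hv, hu⟩ := List.mem_flatMap.1 hu
      obtain ⟨D, hD, -, rfl⟩ := hv₁ v hv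
      rw [mem_bll, hY₁D D hD] at hu
      obtain ⟨D', hD', hc', rfl⟩ := hu
      refine ⟨_, tog_tog _ _ _, ?_, ?_⟩
      · intro i hi
        rw [mem_symmDiff] at hi
        rcases hi with hi | hi
        · exact hTY (hJT (hD hi.1))
        · exact hTY (mem_sdiff.1 (hD' hi.1)).1
      · have h1 : J ∪ symmDiff D D' ⊆ J ∪ D' := by
          intro i hi
          rw [mem_union, mem_symmDiff] at hi
          rw [mem_union]
          rcases hi with hi | hi | hi
          · exact Or.inl hi
          · exact Or.inl (hD hi.1)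
          · exact Or.inr hi.1
        have h2 := card_le_card h1
        have h3 := card_union_le J D'
        omega
    · obtain ⟨v, hv, hu⟩ := List.mem_flatMap.1 hu
      obtain ⟨D, hD, hDc, rfl⟩ := hv₂ v hv
      rw [mem_bll, hY₂D D hD] at hu
      obtain ⟨D', hD', hc', rfl⟩ := hu
      rw [hwD D (hD.trans hIS)]
      refine ⟨_, tog_tog _ _ _, ?_, ?_⟩
      · intro i hi
        rw [mem_symmDiff, mem_union] at hi
        rcases hi with hi | hi
        · rcases hi.1 with h1 | h1
          · exact hTY (hJT h1)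
          · exact hTY (hST (hIS (hD h1)))
        · rcases mem_union.1 (hD' hi.1) with h1 | h1
          · exact hTY (hST (mem_sdiff.1 h1).1)
          · exact (mem_sdiff.1 (hAct h1)).1
      · have h1 : J ∪ symmDiff (J ∪ D) D' ⊆ J ∪ (D ∪ D') := by
          intro i hi
          rw [mem_union, mem_symmDiff, mem_union] at hi
          rw [mem_union, mem_union]
          exact pr5 hi
        have h2 := card_le_card h1
        have h3 := card_union_le J (D ∪ D')
        have h4 := card_union_le D D'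
        omega
  -- a vertex near `a` is not in the new face
  have hout : ∀ E : Finset (Fin n), (I ∩ E).card ≤ ρ → ¬ On X b (tog a E) := by
    intro E hE hon
    have h1 : I ⊆ E := by
      intro i hi
      have h2 := hon i (mem_union_left _ hi)
      by_contra h3
      refine tog_ne_tog.2 ?_ h2
      simp [h3, hi]
    rw [inter_eq_left.2 h1, hIc] at hE
    omega
  have hIE : ∀ E : Finset (Fin n), (I ∩ E).card ≤ (S ∩ E).card := fun E =>
    card_le_card (inter_subset_inter hIS (Subset.refl _))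
  have hrcmem : ∀ u ∈ U₀, ¬ On X b u → rc u ∈ U.map rc := fun u hu hon =>
    List.mem_map_of_mem ((hmemU u).2 ⟨hu, hon⟩)
  refine ⟨J, I, q₁ ++ q₂, U.map rc, hJT, hJc, hIS, hIc, play_append hp₁ hp₂,
    by rw [List.length_append, hl₁, hl₂], ?_, ?_, ?_, ?_, ?_⟩
  · exact ext_aof (frf_aof httS) (fun u i hi hu => frf_unif (htt i (mem_sdiff.1 hi).2) hu) U
  · rw [List.length_map]
    refine (List.length_filter_le _ _).trans ?_
    rw [hU₀, List.length_append, add_mul]
    refine add_le_add ?_ ?_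
    · rw [← hl₁]
      refine flatMap_length _ _ _ fun v _ => ?_
      rw [bll, List.length_map, length_toList]
      exact sml_card_le _
    · rw [← hl₂]
      refine flatMap_length _ _ _ fun v _ => ?_
      rw [bll, List.length_map, length_toList]
      exact sml_card_le _
  · -- the ball around `a`
    intro D hD hDc
    have hSD : (S ∩ D).card ≤ ρ := (card_le_card inter_subset_right).trans hDc
    refine ⟨rc (tog a D), hrcmem _ ?_ (hout D ((hIE D).trans hSD)), rfl, ?_⟩
    · rw [hU₀, List.mem_append]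
      rcases Nat.eq_zero_or_pos N₀ with h0 | h0
      · right
        have hJ0 : J = ∅ := by rw [← card_eq_zero, hJc, h0]
        have hwa : w = a := by rw [hw, hJ0, tog_empty]
        obtain ⟨v, q', rfl⟩ : ∃ v q', q₂ = v :: q' := by
          cases q₂ with
          | nil => simp at hl₂
          | cons v q' => exact ⟨v, q', rfl⟩
        have hva : v.1 = w := hp₂.1
        refine List.mem_flatMap.2 ⟨v, List.mem_cons_self, ?_⟩
        rw [mem_bll]
        refine ⟨D, ?_, hDc, by rw [hva, hwa]⟩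
        intro i hi
        rw [hY₂]
        refine mem_union_left _ (mem_filter.2 ⟨?_, by rw [hva]⟩)
        rw [hS, hJ0, sdiff_empty]
        exact hD hi
      · left
        obtain ⟨v, q', rfl⟩ : ∃ v q', q₁ = v :: q' := by
          cases q₁ with
          | nil => simp at hl₁; omega
          | cons v q' => exact ⟨v, q', rfl⟩
        have hva : v.1 = a := hp₁.1
        refine List.mem_flatMap.2 ⟨v, List.mem_cons_self, ?_⟩
        rw [mem_bll]
        refine ⟨D, ?_, hDc, by rw [hva]⟩
        intro i hi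
        rw [hY₁]
        exact mem_filter.2 ⟨hD hi, by rw [hva]⟩
    · change σ₀ (tog a D) = T \ D
      ext i
      rw [hneg D hSD, mem_sdiff]
      have h1 := @hTY i
      have h2 := @hD i
      tauto
  · -- properties of the records
    intro r hr
    obtain ⟨u, hu, rfl⟩ := List.mem_map.1 hr
    rw [hmemU] at hu
    obtain ⟨hu, hon⟩ := hu
    obtain ⟨E, rfl, hEY, hEc⟩ := hshape u hu
    refine ⟨filter_subset _ _, (filter_subset _ _).trans inter_subset_left, ?_, ?_, ?_, ?_⟩
    · have h1 : Y \ (rc (tog a E)).W ⊆ (Y \ T) ∪ (J ∪ E) := by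
        intro i hi
        simp only [hrc, mem_sdiff, mem_filter, mem_inter, mem_univ, true_and, ht, tog_ne_tog] at hi
        rw [mem_union, mem_union, mem_sdiff]
        by_cases hiA : i ∈ Act J
        · have := mem_sdiff.1 (hAct hiA)
          rw [hS, mem_sdiff] at this
          tauto
        · tauto
      have h2 := card_le_card h1
      have h3 := card_union_le (Y \ T) (J ∪ E)
      omega
    · intro x hx
      exact tog_notMem fun h' => hx (hEY h')
    · have : ∃ x ∈ X, tog a E x ≠ b x := by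
        by_contra hne
        push Not at hne
        exact hon hne
      obtain ⟨x, hx, hxb⟩ := this
      refine ⟨x, hx, ?_, fun h' => hxb h'.symm⟩
      simp only [hrc, mem_filter, mem_inter, mem_sdiff, mem_univ, true_and]
      refine ⟨⟨hTY (hXT hx), hXA x hx⟩, ?_⟩
      rw [← hXb x hx]
      exact hxb
    · intro x hx hxW
      simp only [hrc, mem_filter] at hxW
      change b x ≠ tog a E x
      rw [hXb x hx]
      exact fun h' => hxW.2 h'.symm
  · -- coverage
    intro Rf hRf v hv
    rcases List.mem_append.1 hv with hv | hv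
    · obtain ⟨D, hD, hDN, hvD⟩ := hv₁ v hv
      refine ⟨T \ D, σ₁, fun D' hD' hc' => ?_, by rw [hvD]⟩
      have hdis : Disjoint D D' := by
        rw [disjoint_left]
        intro i hi hi'
        exact (mem_sdiff.1 (hD' hi')).2 hi
      have hv1 : v.1 = tog a D := by rw [hvD]
      rw [hv1, tog_union hdis]
      have hDD : D ∪ D' ⊆ T := union_subset (hD.trans hJT) (hD'.trans sdiff_subset)
      have hSD : (S ∩ (D ∪ D')).card ≤ ρ := by
        refine (card_le_card ?_).trans hc'
        intro i hi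
        rw [mem_inter, mem_union] at hi
        rcases hi.2 with h1 | h1
        · exact absurd (hD h1) (mem_sdiff.1 hi.1).2
        · exact h1
      refine ⟨?_, rc (tog a (D ∪ D')), List.mem_append_left _ (hrcmem _ ?_ (hout _ ((hIE _).trans hSD))),
        rfl, ?_⟩
      · rw [hσ₁E _ hDD]
        exact sdiff_subset_sdiff (Subset.refl _) subset_union_left
      · rw [hU₀, List.mem_append]
        left
        refine List.mem_flatMap.2 ⟨v, hv, ?_⟩
        rw [hv1, mem_bll, hY₁D D hD]
        exact ⟨D', hD', hc', (tog_union hdis).symm⟩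
      · change σ₀ (tog a (D ∪ D')) = _
        rw [hσ₁E _ hDD]
        ext i
        rw [hneg _ hSD, mem_sdiff]
        have h1 := @hTY i
        have h2 := @hDD i
        tauto
    · obtain ⟨D, hD, hDN, hvD⟩ := hv₂ v hv
      refine ⟨(S \ D) ∪ Act J, σ₀, fun D' hD' hc' => ?_, by rw [hvD]⟩
      have hv1 : v.1 = tog w D := by rw [hvD]
      have hv1' : v.1 = tog a (J ∪ D) := by rw [hv1, hwD D (hD.trans hIS)]
      set E := symmDiff (J ∪ D) D' with hE
      have hu : tog v.1 D' = tog a E := by rw [hv1', tog_tog]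
      rw [hu]
      have hmem : tog a E ∈ U₀ := by
        rw [hU₀, List.mem_append]
        right
        refine List.mem_flatMap.2 ⟨v, hv, ?_⟩
        rw [mem_bll]
        refine ⟨D', ?_, hc', hu.symm⟩
        rw [hv1, hY₂D D hD]
        exact hD'
      refine ⟨?_, ?_⟩
      · -- the improving directions are among the ones considered
        intro i hi
        have h2 := @hJT i
        have h3 := @hD i
        have h4 := @hIS i
        have h5 := @hD' i
        simp only [hS, mem_union, mem_sdiff] at h4 h5 ⊢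
        by_cases hcard : (S ∩ E).card ≤ ρ
        · rw [hneg E hcard] at hi
          simp only [hE, mem_symmDiff, mem_union] at hi
          exact pr1 h2 h3 h4 h5 hi
        · rw [hpos E (by omega)] at hi
          simp only [hE, mem_symmDiff, mem_union] at hi
          exact pr2 h2 h3 h4 h5 hi
      · by_cases hon : On X b (tog a E)
        · -- the vertex lies in the new face
          have hIE' : I ⊆ E := by
            intro i hi
            have h2 := hon i (mem_union_left _ hi)
            by_contra h3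
            refine tog_ne_tog.2 ?_ h2
            simp [h3, hi]
          have hcard : ρ + 1 ≤ (S ∩ E).card := by
            rw [← hIc]
            exact card_le_card (subset_inter hIS hIE')
          set D₃ := symmDiff (J ∪ I) E with hD₃
          have hb₃ : tog b D₃ = tog a E := by
            rw [hb, tog_tog, hD₃, symmDiff_symmDiff_cancel_left]
          have hD₃D : ∀ i ∈ D₃, i ∈ D' ∧ i ∉ I := by
            intro i hi
            simp only [hD₃, hE, mem_symmDiff, mem_union] at hi
            have h1 := @hIE' i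
            simp only [hE, mem_symmDiff, mem_union] at h1
            exact pr4 (@hD i) h1 hi
          obtain ⟨r, hr1, hr2, hr3⟩ := hRf D₃ (by
            intro i hi
            obtain ⟨h1, h2⟩ := hD₃D i hi
            have h3 := hD' h1
            rw [mem_union, mem_sdiff] at h3 ⊢
            rcases h3 with h3 | h3
            · exact Or.inl ⟨h3.1, h2⟩
            · exact Or.inr h3) ((card_le_card fun i hi => (hD₃D i hi).1).trans hc')
          refine ⟨r, List.mem_append_right _ hr1, hr2.trans hb₃, ?_⟩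
          rw [hr3]
          ext i
          rw [hpos E hcard]
          have h1 := @hTY i
          have h2 := @hJT i
          have h3 := @hD i
          have h4 := @hIS i
          have h5 := @hD' i
          have h6 := @hIE' i
          have h7 := @hAct i
          simp only [hS, mem_union, mem_sdiff, hE, mem_symmDiff, hD₃] at h4 h5 h6 h7 ⊢
          exact (pr3 h1 h2 h3 h4 h5 h6 h7).symm
        · exact ⟨rc (tog a E), List.mem_append_left _ (hrcmem _ hmem hon), rfl, rfl⟩

end Pool.Agent.J4H72.LA
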