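import Pool.Agent.J4H72.LA.Num
set_option autoImplicit false

/-!
# The run of a rule with look-ahead on the final objective function
-/

namespace Pool.Agent.J4H72.LA

open Finset Pool.Agent.TH70.AR

variable {n : ℕ}

/-- what a rule with look-ahead `ρ` sees at the vertex `x` -/
noncomputable def viewL (f : (Fin n → Bool) → ℕ) (ρ : ℕ) (x : Fin n → Bool) :
    (Fin n → Bool) × ℕ × View n := (x, f x, look (improving f) ρ x)

/-- everything seen along `w 0, …, w t`, the current vertex first -/
noncomputable def seenL (f : (Fin n → Bool) → ℕ) (ρ : ℕ) (w : ℕ → (Fin n → Bool)) : ℕ → PastL n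
  | 0 => [viewL f ρ (w 0)]
  | t + 1 => viewL f ρ (w (t + 1)) :: seenL f ρ w t

/-- `t` steps of the rule from `a` with the past `h` -/
noncomputable def runL (A : PastL n → Fin n) (f : (Fin n → Bool) → ℕ) (ρ : ℕ) :
    ℕ → (Fin n → Bool) → PastL n → (Fin n → Bool) × PastL n
  | 0, a, h => (a, h)
  | t + 1, a, h => runL A f ρ t (TH70.AR.flip a (A (viewL f ρ a :: h))) (viewL f ρ a :: h)

lemma runL_succ (A : PastL n → Fin n) (f : (Fin n → Bool) → ℕ) (ρ t : ℕ) (a : Fin n → Bool)
    (h : PastL n) : runL A f ρ (t + 1) a h =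
      (TH70.AR.flip (runL A f ρ t a h).1 (A (viewL f ρ (runL A f ρ t a h).1 :: (runL A f ρ t a h).2)),
        viewL f ρ (runL A f ρ t a h).1 :: (runL A f ρ t a h).2) := by
  induction t generalizing a h with
  | zero => rfl
  | succ t ih => rw [runL, ih]; rfl

lemma play_imp {A : PastL n → Fin n} {c : ℕ → ℕ} {σ : (Fin n → Bool) → Finset (Fin n)} {ρ : ℕ}
    {q : List ((Fin n → Bool) × View n)} {h : PastL n} {a b : Fin n → Bool}
    (hq : Play A c h a q b) (hS : ∀ v ∈ q, v.2 = look σ ρ v.1) : ∀ v ∈ q, (σ v.1).Nonempty := by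
  induction q generalizing h a with
  | nil => simp
  | cons r q ih =>
    simp only [Play] at hq
    obtain ⟨h1, ⟨S, h2, h2'⟩, h3⟩ := hq
    intro v hv
    rcases List.mem_cons.1 hv with rfl | hv
    · rw [hS v List.mem_cons_self, ← h1, look_self] at h2
      rw [Option.some.injEq] at h2
      rwa [h2]
    · exact ih h3 (fun v hv => hS v (List.mem_cons_of_mem _ hv)) v hv

lemma runL_play {A : PastL n → Fin n} {c : ℕ → ℕ} {f : (Fin n → Bool) → ℕ} {ρ : ℕ}
    {q : List ((Fin n → Bool) × View n)} {h : PastL n} {a b : Fin n → Bool}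
    (hq : Play A c h a q b) (hS : ∀ v ∈ q, v.2 = look (improving f) ρ v.1)
    (hv : ∀ (t : ℕ) (ht : t < q.length), f (q[t]).1 = c (h.length + t)) :
    ∀ (t : ℕ) (ht : t < q.length), (runL A f ρ t a h).1 = (q[t]).1 := by
  induction q generalizing h a with
  | nil => intro t ht; simp at ht
  | cons r q ih =>
    simp only [Play] at hq
    obtain ⟨h1, h2, h3⟩ := hq
    have h4 : viewL f ρ a = (a, c h.length, r.2) := by
      have h5 := hv 0 (by simp)
      simp only [List.getElem_cons_zero, add_zero] at h5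
      rw [viewL, hS r List.mem_cons_self, ← h1, h5]
    intro t ht
    cases t with
    | zero => exact h1.symm
    | succ t =>
      have h5 := ih h3 (fun r hr => hS r (List.mem_cons_of_mem _ hr)) (by
        intro t ht
        have := hv (t + 1) (by simpa using ht)
        simp only [List.getElem_cons_succ] at this
        rw [this, List.length_cons]
        congr 1
        omega) t (by simpa using ht)
      rw [runL, h4]
      simpa using h5

/-- the visited vertices increase -/
lemma play_inc {A : PastL n → Fin n} (hA : ValidL A) {c : ℕ → ℕ} {f : (Fin n → Bool) → ℕ} {ρ : ℕ}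
    {q : List ((Fin n → Bool) × View n)} {h : PastL n} {a b : Fin n → Bool}
    (hq : Play A c h a q b) (hS : ∀ v ∈ q, v.2 = look (improving f) ρ v.1) :
    ∀ (t : ℕ) (ht : t + 1 < q.length), f (q[t]).1 < f (q[t + 1]).1 := by
  induction q generalizing h a with
  | nil => intro t ht; simp at ht
  | cons r q ih =>
    intro t ht
    simp only [Play] at hq
    obtain ⟨h1, ⟨S, h2, h2'⟩, h3⟩ := hq
    cases t with
    | zero =>
      cases q with
      | nil => simp at ht
      | cons s q =>
        simp only [Play] at h3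
        simp only [List.getElem_cons_zero, List.getElem_cons_succ]
        rw [h3.1]
        have h4 := hA a (c h.length) r.2 h S h2 h2'
        rw [hS r List.mem_cons_self, ← h1, look_self, Option.some.injEq] at h2
        rw [← h2, improving, mem_filter] at h4
        rw [h1] at h4 ⊢
        exact h4.2
    | succ t =>
      simp only [List.getElem_cons_succ]
      exact ih h3 (fun r hr => hS r (List.mem_cons_of_mem _ hr)) t (by simpa using ht)

/-- the uniform ball around `b` can be extended -/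
lemma ball_ext (ρ : ℕ) (Y : Finset (Fin n)) (b : Fin n → Bool) :
    ∃ Rf : List (Rec n), Ball ρ Rf b Y ∧ Ext Y Rf ∧ (∀ r ∈ Rf, r.S ⊆ Y) ∧ (∀ r ∈ Rf, r.W ⊆ Y) ∧
      ∀ r ∈ Rf, ∀ x, x ∉ Y → r.w x = b x := by
  classical
  refine ⟨(sml ρ Y).toList.map fun D => ⟨tog b D, Y \ D, ∅⟩, ?_, ?_, ?_, ?_, ?_⟩
  · intro D hD hc
    exact ⟨_, List.mem_map_of_mem (Finset.mem_toList.2 (mem_sml.2 ⟨hD, hc⟩)), rfl, rfl⟩
  · intro v 𝓐 h𝓐
    refine ⟨fun u => agr u (tog b Y), AOF.uniform _, ?_, ?_⟩
    · intro r hr i hi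
      obtain ⟨D, hD, rfl⟩ := List.mem_map.1 hr
      rw [Finset.mem_toList, mem_sml] at hD
      change agr (tog b D) (tog b Y) < agr (TH70.AR.flip (tog b D) i) (tog b Y) ↔ i ∈ Y \ D
      rw [agr_flip_lt_iff, tog_ne_tog, mem_sdiff]
      tauto
    · intro A hAA
      obtain ⟨x, _, hx, _⟩ := h𝓐 A hAA ⟨tog b ∅, Y \ ∅, ∅⟩
        (List.mem_map_of_mem (f := fun D => (⟨tog b D, Y \ D, ∅⟩ : Rec n))
          (Finset.mem_toList.2 (mem_sml.2 ⟨empty_subset _, by simp⟩)))
      exact absurd hx (by simp)
  · intro r hr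
    obtain ⟨D, hD, rfl⟩ := List.mem_map.1 hr
    exact sdiff_subset
  · intro r hr
    obtain ⟨D, hD, rfl⟩ := List.mem_map.1 hr
    exact empty_subset _
  · intro r hr x hx
    obtain ⟨D, hD, rfl⟩ := List.mem_map.1 hr
    rw [Finset.mem_toList, mem_sml] at hD
    exact tog_notMem fun h => hx (hD.1 h)

/-- the lower bound for rules with look-ahead -/
theorem slowL {n k ρ : ℕ}
    (hn : 544 * (ρ + 2) * (k + 1) ^ 3 * (k + 1 + (ρ + 2) * (Nat.log 2 n + 1)) ≤ n)
    (A : PastL n → Fin n) (hA : ValidL A) (x₀ : Fin n → Bool) :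
    ∃ f : (Fin n → Bool) → ℕ, Function.Injective f ∧ AOF f ∧
      ∃ (L : ℕ) (w : ℕ → (Fin n → Bool)), w 0 = x₀ ∧
        (∀ t < L, (improving f (w t)).Nonempty ∧
          w (t + 1) = TH70.AR.flip (w t) (A (seenL f ρ w t))) ∧
        improving f (w L) = ∅ ∧ 2 ^ k ≤ L := by
  classical
  obtain ⟨K, l, M, hK, hLv⟩ := lv_top (c := fun t => (t + 1) * 2 ^ n) hA hn
  obtain ⟨q, R, b, X, P, -, hlen, -⟩ := hLv univ [] x₀ (by simpa using hK)
  obtain ⟨Rf, hB, hE, hRS, hRW, hRw⟩ := ball_ext ρ (univ \ X) b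
  have hE' := ext_comp P.ext P.wipes hE hRS hRW (fun r hr x hx =>
    hRw r hr x fun h' => (mem_sdiff.1 h').2 hx)
  obtain ⟨f₀, hf₀, hf₀S, -⟩ := hE' (fun _ => false) ∅ (by simp)
  have hf₀S' : ∀ r ∈ R.map (cl X b) ++ Rf, improving f₀ r.w = r.S := by
    intro r hr
    ext i
    rw [improving, mem_filter]
    simpa using hf₀S r hr i (mem_univ i)
  have hlook : ∀ v ∈ q, v.2 = look (improving f₀) ρ v.1 := by
    intro v hv
    have h1 := ((P.cov Rf hB).1 v hv).mono
      ((sub_map_cl R X b).append (Sub.of_subset (List.Subset.refl Rf)))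
    exact h1.look hf₀S'
  set u : ℕ → (Fin n → Bool) := fun t => if ht : t < q.length then (q[t]).1 else x₀ with hu
  have hut : ∀ (t : ℕ) (ht : t < q.length), u t = (q[t]).1 := fun t ht => by simp [hu, ht]
  obtain ⟨f, hinj, hadj, hval⟩ := relabel hf₀ (T := q.length) u (by
    intro t ht
    rw [hut t (by omega), hut (t + 1) ht]
    exact play_inc hA P.play hlook t ht)
  have himp : improving f = improving f₀ := by
    funext x
    ext i
    simp only [improving, mem_filter, hadj]
  have hAOF : AOF f := by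
    have h1 : ∀ y i, f (TH70.AR.flip y i) < f y ↔ f₀ (TH70.AR.flip y i) < f₀ y := by
      intro y i
      have := hadj (TH70.AR.flip y i) i
      rwa [TH70.AR.flip_flip] at this
    intro F x
    obtain ⟨y, ⟨hy1, hy2⟩, hy3⟩ := hf₀ F x
    exact ⟨y, ⟨hy1, fun i hi => (h1 y i).2 (hy2 i hi)⟩,
      fun z hz => hy3 z ⟨hz.1, fun i hi => (h1 z i).1 (hz.2 i hi)⟩⟩
  rw [← himp] at hlook
  have hrun := runL_play (f := f) P.play hlook (by
    intro t ht
    rw [← hut t ht, hval t ht]
    simp)
  have hne := play_imp P.play hlook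
  refine ⟨f, hinj, hAOF, ?_⟩
  -- the run
  set w : ℕ → (Fin n → Bool) := fun t => (runL A f ρ t x₀ []).1 with hw
  have hseen : ∀ t, seenL f ρ w t = viewL f ρ (w t) :: (runL A f ρ t x₀ []).2 := by
    intro t
    induction t with
    | zero => rfl
    | succ t ih => rw [seenL, ih, runL_succ]
  have hstep : ∀ t, w (t + 1) = TH70.AR.flip (w t) (A (seenL f ρ w t)) := by
    intro t
    rw [hseen]
    simp only [hw, runL_succ]
  have hup : ∀ t, (improving f (w t)).Nonempty → f (w t) < f (w (t + 1)) := by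
    intro t ht
    have h1 := hA (w t) (f (w t)) (look (improving f) ρ (w t)) (runL A f ρ t x₀ []).2
      (improving f (w t)) (look_self _ _ _) ht
    rw [hstep, hseen]
    change A (viewL f ρ (w t) :: (runL A f ρ t x₀ []).2) ∈ improving f (w t) at h1
    rw [improving, mem_filter] at h1
    exact h1.2
  have hend : ∃ t, improving f (w t) = ∅ := by
    by_contra hne
    push Not at hne
    have h1 : StrictMono fun t => f (w t) := strictMono_nat_of_lt_succ fun t => hup t (hne t)
    have h2 := h1.injective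
    have h3 : Function.Injective w := fun s t h => h2 (by simp only [h])
    exact not_injective_infinite_finite w h3
  refine ⟨Nat.find hend, w, rfl, fun t ht => ⟨?_, hstep t⟩, Nat.find_spec hend, ?_⟩
  · exact nonempty_iff_ne_empty.2 (Nat.find_min hend ht)
  · by_contra hlt
    have h1 : Nat.find hend < q.length := by omega
    have h2 := hrun _ h1
    have h3 := hne _ (List.getElem_mem h1)
    rw [← h2] at h3
    exact h3.ne_empty (Nat.find_spec hend)

end Pool.Agent.J4H72.LA
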