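import Pool.Agent.J4H72.LA.Phase
set_option autoImplicit false

/-!
# The wiping phase
-/

namespace Pool.Agent.J4H72.LA

open Finset Pool.Agent.TH70.AR

variable {n : ℕ} {A : PastL n → Fin n} {c : ℕ → ℕ} {ρ : ℕ}

/-- the exceptional coordinates: too many records are not wiped by them -/
def exc (k : ℕ) (Y : Finset (Fin n)) (L : List (Rec n)) : Finset (Fin n) :=
  Y.filter fun x => k * L.length < (k + 1) * L.countP (fun r => decide (x ∉ r.W))

/-- the records wiped by freezing `x` at `β` -/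
def kill (L : List (Rec n)) (x : Fin n) (β : Bool) : List (Rec n) :=
  L.filter fun r => decide (x ∈ r.W ∧ β ≠ r.w x)

/-- the records not wiped by freezing `x` at `β` -/
def rest (L : List (Rec n)) (x : Fin n) (β : Bool) : List (Rec n) :=
  L.filter fun r => !decide (x ∈ r.W ∧ β ≠ r.w x)

/-- flipping `x` wipes a large part of the records -/
def Gd (k : ℕ) (L : List (Rec n)) (a : Fin n → Bool) (x : Fin n) : Prop :=
  L.length ≤ (2 * k + 2) * (kill L x (!a x)).length

instance (k : ℕ) (L : List (Rec n)) (a : Fin n → Bool) : DecidablePred (Gd k L a) := fun _ => by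
  unfold Gd; infer_instance

/-- the potential of a state -/
def mu (k : ℕ) (Y T : Finset (Fin n)) (L : List (Rec n)) (a : Fin n → Bool) : ℕ :=
  ((Y \ exc k Y L).filter fun x => ¬ Gd k L a x).card + (exc k Y L ∩ T).card

lemma exc_nil (k : ℕ) (Y : Finset (Fin n)) : exc k Y [] = ∅ := by
  simp [exc]

lemma exc_sub (k : ℕ) (Y : Finset (Fin n)) (L : List (Rec n)) : exc k Y L ⊆ Y := filter_subset _ _

lemma mem_exc_of {k : ℕ} {Y Y' : Finset (Fin n)} {L : List (Rec n)} {x : Fin n}
    (h : x ∈ exc k Y L) (hx : x ∈ Y') : x ∈ exc k Y' L := by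
  rw [exc, mem_filter] at h ⊢
  exact ⟨hx, h.2⟩

lemma mu_le (k : ℕ) (Y T : Finset (Fin n)) (L : List (Rec n)) (a : Fin n → Bool) :
    mu k Y T L a ≤ Y.card := by
  unfold mu
  have h1 := card_filter_le (Y \ exc k Y L) (fun x => ¬ Gd k L a x)
  have h2 : (exc k Y L ∩ T).card ≤ (exc k Y L).card := card_le_card inter_subset_left
  have h3 : (Y \ exc k Y L).card + (exc k Y L).card = Y.card :=
    card_sdiff_add_card_eq_card (exc_sub k Y L)
  omega

/-- one of the two values of a non-exceptional coordinate is good -/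
lemma gd_or {k : ℕ} {Y : Finset (Fin n)} {L : List (Rec n)} {a b : Fin n → Bool} {x : Fin n}
    (hL : L ≠ []) (hx : x ∈ Y) (hxE : x ∉ exc k Y L) (hab : b x = !a x) (ha : ¬ Gd k L a x) :
    Gd k L b x := by
  by_contra hb
  unfold Gd at ha hb
  rw [hab, Bool.not_not] at hb
  push Not at ha hb
  have h1 := count_three L a x
  rw [flip_self] at h1
  have h3 : (k + 1) * L.countP (fun r => decide (x ∉ r.W)) ≤ k * L.length := by
    by_contra h'
    exact hxE (by rw [exc, mem_filter]; exact ⟨hx, by omega⟩)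
  have h4 : 0 < L.length := List.length_pos_of_ne_nil hL
  change L.length ≤ (kill L x (!a x)).length + (kill L x (a x)).length + _ at h1
  nlinarith

/-- a good move leaves few records -/
lemma rest_small {k m : ℕ} {L : List (Rec n)} {a : Fin n → Bool} {x : Fin n} (h : Gd k L a x)
    (hc : L.length * (2 * k + 1) ^ (m + 1) < (2 * k + 2) ^ (m + 1)) :
    (rest L x (!a x)).length * (2 * k + 1) ^ m < (2 * k + 2) ^ m := by
  have h1 := filter_card L (fun r => decide (x ∈ r.W ∧ (!a x) ≠ r.w x)) h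
  have h2 : (2 * k + 2) * (rest L x (!a x)).length ≤ (2 * k + 1) * L.length := by
    change (2 * k + 2) * (rest L x (!a x)).length + L.length ≤ (2 * k + 2) * L.length at h1
    nlinarith
  have h3 : (2 * k + 2) * ((rest L x (!a x)).length * (2 * k + 1) ^ m)
      < (2 * k + 2) * (2 * k + 2) ^ m := by
    calc (2 * k + 2) * ((rest L x (!a x)).length * (2 * k + 1) ^ m)
        = ((2 * k + 2) * (rest L x (!a x)).length) * (2 * k + 1) ^ m := by ring
      _ ≤ ((2 * k + 1) * L.length) * (2 * k + 1) ^ m := Nat.mul_le_mul_right _ h2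
      _ = L.length * (2 * k + 1) ^ (m + 1) := by ring
      _ < (2 * k + 2) ^ (m + 1) := hc
      _ = (2 * k + 2) * (2 * k + 2) ^ m := by ring
  exact lt_of_mul_lt_mul_left h3 (Nat.zero_le _)

/-- in a round without a good move the potential drops -/
lemma mu_drop {k : ℕ} {Y T J I T' : Finset (Fin n)} {L : List (Rec n)} {a : Fin n → Bool}
    (hL : L ≠ []) (hTY : T ⊆ Y) (hJT : J ⊆ T) (hbad : ∀ x ∈ J, ¬ Gd k L a x)
    (hT' : ∀ x ∈ T', x ∈ exc k Y L → x ∈ T ∧ x ∉ J) :
    mu k (Y \ I) T' L (tog a (J ∪ I)) + J.card ≤ mu k Y T L a := by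
  set E := exc k Y L with hE
  have e1 : ∀ x ∈ Y \ I, (x ∈ exc k (Y \ I) L ↔ x ∈ E) := by
    intro x hx
    exact ⟨fun h => mem_exc_of h (mem_sdiff.1 hx).1, fun h => mem_exc_of h hx⟩
  have h1 : ((Y \ I) \ exc k (Y \ I) L).filter (fun x => ¬ Gd k L (tog a (J ∪ I)) x) ⊆
      ((Y \ E).filter fun x => ¬ Gd k L a x) \ (J \ E) := by
    intro x hx
    rw [mem_filter, mem_sdiff] at hx
    obtain ⟨⟨hx1, hx2⟩, hx3⟩ := hx
    rw [e1 x hx1] at hx2
    have hxY := (mem_sdiff.1 hx1).1
    have hxJ : x ∉ J := by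
      intro hxJ
      exact hx3 (gd_or hL hxY hx2 (tog_mem (mem_union_left _ hxJ)) (hbad x hxJ))
    have hxb : tog a (J ∪ I) x = a x := tog_notMem (by
      rw [mem_union]
      rintro (h | h)
      · exact hxJ h
      · exact (mem_sdiff.1 hx1).2 h)
    rw [mem_sdiff, mem_filter, mem_sdiff]
    refine ⟨⟨⟨hxY, hx2⟩, ?_⟩, fun h => hxJ (mem_sdiff.1 h).1⟩
    unfold Gd at hx3 ⊢
    rwa [hxb] at hx3
  have h2 : exc k (Y \ I) L ∩ T' ⊆ (E ∩ T) \ (J ∩ E) := by
    intro x hx
    rw [mem_inter] at hx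
    have hx1 : x ∈ Y \ I := exc_sub _ _ _ hx.1
    have hxE : x ∈ E := (e1 x hx1).1 hx.1
    obtain ⟨h3, h4⟩ := hT' x hx.2 hxE
    rw [mem_sdiff, mem_inter]
    exact ⟨⟨hxE, h3⟩, fun h => h4 (mem_inter.1 h).1⟩
  have h3 : J \ E ⊆ (Y \ E).filter fun x => ¬ Gd k L a x := by
    intro x hx
    rw [mem_sdiff] at hx
    rw [mem_filter, mem_sdiff]
    exact ⟨⟨hTY (hJT hx.1), hx.2⟩, hbad x hx.1⟩
  have h4 : J ∩ E ⊆ E ∩ T := by
    intro x hx
    rw [mem_inter] at hx ⊢
    exact ⟨hx.2, hJT hx.1⟩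
  have h5 := card_le_card h1
  have h6 := card_le_card h2
  have h7 := card_sdiff_add_card_eq_card h3
  have h8 := card_sdiff_add_card_eq_card h4
  have h9 : (J \ E).card + (J ∩ E).card = J.card := card_sdiff_add_card_inter J E
  unfold mu
  rw [← hE]
  omega

/-- composition of phases with all frozen coordinates kept -/
lemma Phase.glue_keep {Y T X₁ T₁ X₂ T₂ : Finset (Fin n)} {h : PastL n} {a b₁ b₂ : Fin n → Bool}
    {q₁ q₂ : List ((Fin n → Bool) × View n)} {R₁ R₂ : List (Rec n)} {B₁ B₂ B : ℕ}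
    (P₁ : Phase A c ρ Y T h a q₁ R₁ b₁ X₁ T₁ B₁)
    (P₂ : Phase A c ρ (Y \ X₁) T₁ (pstL c h q₁) b₁ q₂ R₂ b₂ X₂ T₂ B₂)
    (hB₁ : B₁ + X₁.card ≤ B) (hB₂ : B₂ + X₁.card ≤ B) :
    Phase A c ρ Y T h a (q₁ ++ q₂) (R₁.map (cl X₁ b₁) ++ R₂) b₂ (X₁ ∪ X₂) T₂ B := by
  refine P₁.glue P₂ (union_subset P₁.sub (P₂.sub.trans sdiff_subset)) ?_ ?_ hB₁ hB₂
  · intro r hr
    obtain ⟨x, h1, h2, h3⟩ := P₁.wipes r hr
    refine ⟨x, mem_union_left _ h1, mem_filter.2 ⟨h2, fun h' => h3 h'.2⟩, ?_⟩
    rw [P₂.fix x fun h' => (mem_sdiff.1 h').2 h1]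
    exact h3
  · intro r hr
    obtain ⟨x, h1, h2, h3⟩ := P₂.wipes r hr
    exact ⟨x, mem_union_right _ h1, h2, h3⟩

/-- **The wiping phase with look-ahead.** -/
lemma wipeL (hA : ValidL A) {k K N₀ Jm : ℕ} (hk : 1 ≤ k) (hn : n < (Jm + 1) * N₀) (m : ℕ) :
    ∀ (j : ℕ) (Y T : Finset (Fin n)) (L : List (Rec n)) (h : PastL n) (a : Fin n → Bool),
      T ⊆ Y → (∀ r ∈ L, (Y \ r.W).card ≤ K) →
      L.length * (2 * k + 1) ^ m < (2 * k + 2) ^ m →
      Y \ T ⊆ exc k Y L → mu k Y T L a < (j + 1) * N₀ →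
      (K + K / k) + N₀ + ρ + 1 + (ρ + 2) * (m * (Jm + 1) + j + 1) ≤ Y.card →
      ∃ (q : List ((Fin n → Bool) × View n)) (R : List (Rec n)) (b : Fin n → Bool)
        (X : Finset (Fin n)),
        Phase A c ρ Y T h a q R b X (Y \ X)
          (K + K / k + N₀ + 2 * ρ + (ρ + 2) * (m * (Jm + 1) + j + 1)) ∧
        X.card ≤ (ρ + 2) * (m * (Jm + 1) + j + 1) ∧
        R.length ≤ (m * (Jm + 1) + j + 1) * ((N₀ + (ρ + 1)) * bc n ρ) ∧
        ∀ r ∈ L, Wipes X b r := by
  classical
  -- nothing left to wipe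
  have hnil : ∀ (Y T : Finset (Fin n)) (h : PastL n) (a : Fin n → Bool) (B l M : ℕ), T ⊆ Y →
      Y \ T ⊆ exc k Y ([] : List (Rec n)) →
      ∃ (q : List ((Fin n → Bool) × View n)) (R : List (Rec n)) (b : Fin n → Bool)
        (X : Finset (Fin n)),
        Phase A c ρ Y T h a q R b X (Y \ X) B ∧ X.card ≤ l ∧ R.length ≤ M ∧
        ∀ r ∈ ([] : List (Rec n)), Wipes X b r := by
    intro Y T h a B l M hTY hE
    have hT : Y \ ∅ = T := by
      rw [sdiff_empty]
      rw [exc_nil, subset_empty, sdiff_eq_empty_iff_subset] at hE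
      exact Subset.antisymm hE hTY
    refine ⟨[], [], a, ∅, ?_, by simp, by simp, by simp⟩
    rw [hT]
    exact Phase.nil A c ρ Y T h a B
  induction m with
  | zero =>
    intro j Y T L h a hTY hL hc hE hmu hY
    have hL0 : L = [] := by
      rw [← List.length_eq_zero_iff]
      simpa using hc
    subst hL0
    exact hnil Y T h a _ _ _ hTY hE
  | succ m ih =>
    intro j
    induction j using Nat.strong_induction_on with
    | _ j ihj =>
    intro Y T L h a hTY hL hc hE hmu hY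
    by_cases hL0 : L = []
    · subst hL0
      exact hnil Y T h a _ _ _ hTY hE
    have hEc : (exc k Y L).card ≤ K + K / k := exceptional_card hk hL0 hL
    have hYTc : (Y \ T).card ≤ K + K / k := (card_le_card hE).trans hEc
    have hTc : (Y \ T).card + T.card = Y.card := card_sdiff_add_card_eq_card hTY
    -- the choice of the adversary
    have hchoice : ∀ J : Finset (Fin n), ∃ Z Ac : Finset (Fin n),
        (∃ x ∈ J, Gd k L a x ∧ Z = {x} ∧
          Ac = (Y \ (T \ J)) \ (exc k Y (rest L x (!a x)) ∪ {x})) ∨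
        ((∀ x ∈ J, ¬ Gd k L a x) ∧ Z = ∅ ∧ Ac = (Y \ (T \ J)) \ exc k Y L) := by
      intro J
      by_cases hg : ∃ x ∈ J, Gd k L a x
      · obtain ⟨x, hx, hgx⟩ := hg
        exact ⟨_, _, Or.inl ⟨x, hx, hgx, rfl, rfl⟩⟩
      · push Not at hg
        exact ⟨_, _, Or.inr ⟨hg, rfl, rfl⟩⟩
    choose Z Act hZA using hchoice
    have hAct : ∀ J ⊆ T, J.card = N₀ → Act J ⊆ Y \ (T \ J) := by
      intro J _ _
      rcases hZA J with ⟨x, _, _, _, h1⟩ | ⟨_, _, h1⟩
      · rw [h1]; exact sdiff_subset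
      · rw [h1]; exact sdiff_subset
    have hZ : ∀ J ⊆ T, J.card = N₀ → Z J ⊆ J ∧ Disjoint (Z J) (Act J) := by
      intro J _ _
      rcases hZA J with ⟨x, hx, _, h1, h2⟩ | ⟨_, h1, _⟩
      · rw [h1, h2]
        refine ⟨by simpa using hx, ?_⟩
        rw [disjoint_singleton_left]
        intro h'
        exact (mem_sdiff.1 h').2 (mem_union_right _ (mem_singleton_self x))
      · rw [h1]; simp
    have hring : (ρ + 2) * ((m + 1) * (Jm + 1) + j + 1)
        = (ρ + 2) + (ρ + 2) * ((m + 1) * (Jm + 1) + j) := by ring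
    have hcT : N₀ + ρ + 1 ≤ T.card := by
      rw [hring] at hY
      omega
    obtain ⟨J, I, q₁, R₁, hJT, hJc, hIS, hIc, hq₁, hR₁, P₁⟩ :=
      round_phase (c := c) hA hTY a h (N₀ := N₀) hcT Act Z hAct hZ
    have hIT : I ⊆ T := hIS.trans sdiff_subset
    rcases hZA J with ⟨x, hxJ, hgx, hZx, hAx⟩ | ⟨hbad, hZx, hAx⟩
    · -- a good move
      rw [hZx] at P₁
      have hX₁c : (I ∪ {x}).card ≤ ρ + 2 := by
        have h1 := card_union_le I {x}
        rw [card_singleton] at h1
        omega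
      have hX₁Y : I ∪ {x} ⊆ Y := P₁.sub
      have hYc : (Y \ (I ∪ {x})).card + (I ∪ {x}).card = Y.card :=
        card_sdiff_add_card_eq_card hX₁Y
      have hβ : (m + 1) * (Jm + 1) + j + 1 = (m * (Jm + 1) + Jm + 1) + (j + 1) := by ring
      have hβ' : (ρ + 2) * ((m + 1) * (Jm + 1) + j + 1)
          = (ρ + 2) * (m * (Jm + 1) + Jm + 1) + (ρ + 2) * j + (ρ + 2) := by rw [hβ]; ring
      have hρj : 0 ≤ (ρ + 2) * j := Nat.zero_le _
      obtain ⟨q₂, R₂, b₂, X₂, P₂, hX₂, hR₂, hw₂⟩ := ih Jm (Y \ (I ∪ {x}))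
        (((T \ J) \ I) ∪ Act J) (rest L x (!a x)) (pstL c h q₁) (tog a (J ∪ I))
        (by
          intro i hi
          rw [mem_union, hAx, mem_sdiff, mem_sdiff, mem_sdiff, mem_sdiff, mem_union,
            mem_singleton] at hi
          rw [mem_sdiff, mem_union, mem_singleton]
          rcases hi with hi | hi
          · refine ⟨hTY hi.1.1, ?_⟩
            rintro (h' | rfl)
            · exact hi.2 h'
            · exact hi.1.2 hxJ
          · refine ⟨hi.1.1, ?_⟩
            rintro (h' | h')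
            · exact hi.1.2 (by rw [mem_sdiff]; exact mem_sdiff.1 (hIS h'))
            · exact hi.2 (Or.inr h'))
        (fun r hr => (card_le_card (sdiff_subset_sdiff sdiff_subset (Subset.refl _))).trans
          (hL r (List.mem_of_mem_filter hr)))
        (rest_small hgx hc)
        (by
          intro i hi
          rw [mem_sdiff, mem_sdiff, mem_union, mem_union, mem_singleton, hAx] at hi
          simp only [mem_sdiff, mem_union, mem_singleton] at hi
          refine mem_exc_of (Y := Y) ?_ (by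
            rw [mem_sdiff, mem_union, mem_singleton]; exact hi.1)
          by_contra h'
          apply hi.2
          by_cases h1 : i ∈ T ∧ i ∉ J
          · exact Or.inl ⟨h1, fun h2 => hi.1.2 (Or.inl h2)⟩
          · refine Or.inr ⟨⟨hi.1.1, h1⟩, ?_⟩
            rintro (h2 | h2)
            · exact h' h2
            · exact hi.1.2 (Or.inr h2))
        (lt_of_le_of_lt ((mu_le _ _ _ _ _).trans ((card_le_univ _).trans (by simp))) hn)
        (by omega)
      have P := P₁.glue_keep P₂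
        (B := K + K / k + N₀ + 2 * ρ + (ρ + 2) * ((m + 1) * (Jm + 1) + j + 1))
        (by omega) (by omega)
      have hTT : (Y \ (I ∪ {x})) \ X₂ = Y \ ((I ∪ {x}) ∪ X₂) := by
        ext i; simp only [mem_sdiff, mem_union]; tauto
      rw [hTT] at P
      refine ⟨_, _, _, _, P, ?_, ?_, ?_⟩
      · have h1 := card_union_le (I ∪ {x}) X₂
        omega
      · rw [List.length_append, List.length_map]
        have h1 : ((m + 1) * (Jm + 1) + j + 1) * ((N₀ + (ρ + 1)) * bc n ρ)
            = (m * (Jm + 1) + Jm + 1) * ((N₀ + (ρ + 1)) * bc n ρ) +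
              j * ((N₀ + (ρ + 1)) * bc n ρ) + (N₀ + (ρ + 1)) * bc n ρ := by rw [hβ]; ring
        have h2 : 0 ≤ j * ((N₀ + (ρ + 1)) * bc n ρ) := Nat.zero_le _
        omega
      · intro r hr
        by_cases hr' : x ∈ r.W ∧ (!a x) ≠ r.w x
        · refine ⟨x, mem_union_left _ (mem_union_right _ (mem_singleton_self x)), hr'.1, ?_⟩
          rw [P₂.fix x (by simp), tog_mem (mem_union_left _ hxJ)]
          exact hr'.2
        · obtain ⟨y, h1, h2, h3⟩ := hw₂ r (List.mem_filter.2 ⟨hr, by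
            simp only [Bool.not_eq_true', decide_eq_false_iff_not]; exact hr'⟩)
          exact ⟨y, mem_union_right _ h1, h2, h3⟩
    · -- no good move
      rw [hZx, union_empty] at P₁
      have hX₁Y : I ⊆ Y := P₁.sub
      have hYc : (Y \ I).card + I.card = Y.card := card_sdiff_add_card_eq_card hX₁Y
      have hdrop := mu_drop (k := k) (Y := Y) (T := T) (J := J) (I := I)
        (T' := ((T \ J) \ I) ∪ Act J) (L := L) (a := a) hL0 hTY hJT hbad (by
          intro i hi hiE
          rw [mem_union, hAx, mem_sdiff, mem_sdiff, mem_sdiff] at hi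
          rcases hi with hi | hi
          · exact hi.1
          · exact absurd hiE hi.2)
      have hj : j ≠ 0 := by
        rintro rfl
        omega
      obtain ⟨j', rfl⟩ : ∃ j', j = j' + 1 := ⟨j - 1, by omega⟩
      have hmul : (j' + 1 + 1) * N₀ = (j' + 1) * N₀ + N₀ := by ring
      have hβ' : (ρ + 2) * ((m + 1) * (Jm + 1) + (j' + 1) + 1)
          = (ρ + 2) * ((m + 1) * (Jm + 1) + j' + 1) + (ρ + 2) := by ring
      obtain ⟨q₂, R₂, b₂, X₂, P₂, hX₂, hR₂, hw₂⟩ := ihj j' (by omega) (Y \ I)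
        (((T \ J) \ I) ∪ Act J) L (pstL c h q₁) (tog a (J ∪ I))
        (by
          intro i hi
          rw [mem_union, hAx, mem_sdiff, mem_sdiff, mem_sdiff, mem_sdiff] at hi
          rw [mem_sdiff]
          rcases hi with hi | hi
          · exact ⟨hTY hi.1.1, hi.2⟩
          · refine ⟨hi.1.1, fun h' => hi.1.2 ?_⟩
            rw [mem_sdiff]; exact mem_sdiff.1 (hIS h'))
        (fun r hr => (card_le_card (sdiff_subset_sdiff sdiff_subset (Subset.refl _))).trans
          (hL r hr))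
        hc
        (by
          intro i hi
          rw [mem_sdiff, mem_sdiff, mem_union, hAx] at hi
          simp only [mem_sdiff] at hi
          refine mem_exc_of (Y := Y) ?_ (by rw [mem_sdiff]; exact hi.1)
          by_contra h'
          apply hi.2
          by_cases h1 : i ∈ T ∧ i ∉ J
          · exact Or.inl ⟨h1, hi.1.2⟩
          · exact Or.inr ⟨⟨hi.1.1, h1⟩, h'⟩)
        (by omega)
        (by omega)
      have P := P₁.glue_keep P₂
        (B := K + K / k + N₀ + 2 * ρ + (ρ + 2) * ((m + 1) * (Jm + 1) + (j' + 1) + 1))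
        (by omega) (by omega)
      have hTT : (Y \ I) \ X₂ = Y \ (I ∪ X₂) := by
        ext i; simp only [mem_sdiff, mem_union]; tauto
      rw [hTT] at P
      refine ⟨_, _, _, _, P, ?_, ?_, ?_⟩
      · have h1 := card_union_le I X₂
        omega
      · rw [List.length_append, List.length_map]
        have h1 : ((m + 1) * (Jm + 1) + (j' + 1) + 1) * ((N₀ + (ρ + 1)) * bc n ρ)
            = ((m + 1) * (Jm + 1) + j' + 1) * ((N₀ + (ρ + 1)) * bc n ρ) +
              (N₀ + (ρ + 1)) * bc n ρ := by ring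
        omega
      · intro r hr
        obtain ⟨y, h1, h2, h3⟩ := hw₂ r hr
        exact ⟨y, mem_union_right _ h1, h2, h3⟩

end Pool.Agent.J4H72.LA
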